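import Mathlib

/-!
# The boundary-controlled heat equation on `(0,1)`: definitions

`∂ₜ x(t,z) = ∂_z² x(t,z)` for `z ∈ (0,1)`, `x(t,0) = 0`, `x(t,1) = u(t)`.
-/

open MeasureTheory Set Filter Topology
open scoped ENNReal

namespace Pool.Agent.Helper45.HeatISS

noncomputable section

/-- The state space `X = L₂(0,1)` (real-valued functions). -/
abbrev X : Type := Lp ℝ 2 (volume.restrict (Ioo (0 : ℝ) 1))

/-- The input space `L_∞(ℝ_+, ℝ)` with the essential-supremum norm. -/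
abbrev U : Type := Lp ℝ ∞ (volume.restrict (Ici (0 : ℝ)))

/-- `ξ : [0,∞) → L₂(0,1)` is the solution of the heat equation `∂ₜ ξ = ∂_z² ξ` on `(0,1)` with
boundary values `ξ(t,0) = 0`, `ξ(t,1) = u(t)` and initial state `x₀`: it is continuous in time with
`ξ(0) = x₀`, and for every `C²` test function `ψ` with `ψ(0) = ψ(1) = 0` and every `t ≥ 0`
`⟨ξ(t),ψ⟩ = ⟨x₀,ψ⟩ + ∫₀ᵗ (⟨ξ(s),ψ''⟩ - u(s) ψ'(1)) ds`.
(These `ψ` are dense in the graph norm in the domain `H² ∩ H¹₀` of the self-adjoint operator `A`,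
and `⟨B u, ψ⟩ = - u ψ'(1)` for the Dirichlet boundary control operator `B`, so that this is the
usual weak form of `ξ' = A ξ + B u`, equivalent to the variation-of-constants formula.) -/
structure IsSolution (x₀ : X) (u : U) (ξ : ℝ → X) : Prop where
  continuousOn : ContinuousOn ξ (Ici 0)
  initial : ξ 0 = x₀
  weak : ∀ ψ : ℝ → ℝ, ContDiff ℝ 2 ψ → ψ 0 = 0 → ψ 1 = 0 → ∀ t : ℝ, 0 ≤ t →
    ∫ z in Ioo (0 : ℝ) 1, ξ t z * ψ z =
      (∫ z in Ioo (0 : ℝ) 1, x₀ z * ψ z) +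
        ∫ s in (0 : ℝ)..t,
          ((∫ z in Ioo (0 : ℝ) 1, ξ s z * deriv (deriv ψ) z) - u s * deriv ψ 1)

/-- The coefficient `⟨x, e_n⟩` of `x ∈ L₂(0,1)` with respect to the normalised Dirichlet
eigenfunction `e_n(z) = √2 sin(nπz)`, `n ≥ 1`. -/
def sineCoeff (n : ℕ) (x : X) : ℝ :=
  ∫ z in Ioo (0 : ℝ) 1, x z * (Real.sqrt 2 * Real.sin (n * Real.pi * z))

/-- Class `𝒦`: continuous, strictly increasing on `[0,∞)`, zero at zero. -/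
def ClassK (γ : ℝ → ℝ) : Prop :=
  ContinuousOn γ (Ici 0) ∧ StrictMonoOn γ (Ici 0) ∧ γ 0 = 0

/-- Class `𝒦_∞`: class `𝒦` and unbounded. -/
def ClassKInf (γ : ℝ → ℝ) : Prop :=
  ClassK γ ∧ Tendsto γ atTop atTop

/-- `V` is a coercive ISS Lyapunov function for the system with solution map `φ t x u`: `V` is
continuous, `ψ₁(‖x‖) ≤ V x ≤ ψ₂(‖x‖)` with `ψ₁, ψ₂ ∈ 𝒦_∞`, and for some `α ∈ 𝒦_∞`, `σ ∈ 𝒦` the
upper right Dini derivative `limsup_{h → 0+} (V(φ(h,x,u)) - V(x)) / h` is at most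
`- α(‖x‖) + σ(‖u‖)`, for all `x ∈ L₂(0,1)`, `u ∈ L_∞(ℝ_+)`. The `limsup` is taken in the extended
reals. -/
def IsCoerciveISSLyapunov (φ : ℝ → X → U → X) (V : X → ℝ) : Prop :=
  Continuous V ∧
  ∃ ψ₁ ψ₂ α σ : ℝ → ℝ, ClassKInf ψ₁ ∧ ClassKInf ψ₂ ∧ ClassKInf α ∧ ClassK σ ∧
    (∀ x : X, ψ₁ ‖x‖ ≤ V x ∧ V x ≤ ψ₂ ‖x‖) ∧
    ∀ (x : X) (u : U),
      limsup (fun h : ℝ => (((V (φ h x u) - V x) / h : ℝ) : EReal)) (𝓝[>] 0) ≤
        ((-α ‖x‖ + σ ‖u‖ : ℝ) : EReal)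

end

end Pool.Agent.Helper45.HeatISS
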