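import Mathlib
import Pool.Agent.Helper45.HeatDefs

/-!
# The sine basis of `L₂(0,1)`
-/

open MeasureTheory Set Filter Topology
open scoped ENNReal RealInnerProductSpace

namespace Pool.Agent.Helper45.HeatISS

noncomputable section

/-- the sine function `√2 sin((k+1) π z)` -/
def sfun (k : ℕ) (z : ℝ) : ℝ := Real.sqrt 2 * Real.sin (((k + 1 : ℕ) : ℝ) * Real.pi * z)

lemma sfun_continuous (k : ℕ) : Continuous (sfun k) := by
  unfold sfun; fun_prop

lemma sfun_abs_le (k : ℕ) (z : ℝ) : |sfun k z| ≤ Real.sqrt 2 := by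
  unfold sfun
  rw [abs_mul, abs_of_nonneg (Real.sqrt_nonneg 2)]
  calc Real.sqrt 2 * |Real.sin (((k + 1 : ℕ) : ℝ) * Real.pi * z)| ≤ Real.sqrt 2 * 1 := by
        gcongr; exact Real.abs_sin_le_one _
    _ = Real.sqrt 2 := mul_one _

/-- a continuous function restricted to `(0,1)` is in `L²` -/
lemma memLp_of_continuous {g : ℝ → ℝ} (hg : Continuous g) (p : ℝ≥0∞) :
    MemLp g p (volume.restrict (Ioo (0 : ℝ) 1)) := by
  obtain ⟨C, hC⟩ := (isCompact_Icc (a := (0 : ℝ)) (b := 1)).exists_bound_of_continuousOn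
    hg.continuousOn
  refine MemLp.of_bound hg.aestronglyMeasurable C ?_
  rw [ae_restrict_iff' measurableSet_Ioo]
  exact Eventually.of_forall fun z hz => hC z (Ioo_subset_Icc_self hz)

/-- continuous functions as elements of `X` -/
def ofCont {g : ℝ → ℝ} (hg : Continuous g) : X := (memLp_of_continuous hg 2).toLp g

lemma ofCont_coe {g : ℝ → ℝ} (hg : Continuous g) :
    (ofCont hg : ℝ → ℝ) =ᵐ[volume.restrict (Ioo (0 : ℝ) 1)] g :=
  MemLp.coeFn_toLp _

lemma inner_ofCont {g : ℝ → ℝ} (hg : Continuous g) (x : X) :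
    ⟪ofCont hg, x⟫ = ∫ z in Ioo (0 : ℝ) 1, x z * g z := by
  rw [MeasureTheory.L2.inner_def]
  apply integral_congr_ae
  filter_upwards [ofCont_coe hg] with z hz
  simp [hz]

/-- the basis vector -/
def ek (k : ℕ) : X := ofCont (sfun_continuous k)

lemma inner_ek (k : ℕ) (x : X) : ⟪ek k, x⟫ = sineCoeff (k + 1) x := by
  unfold ek sineCoeff
  rw [inner_ofCont]
  rfl

lemma integral_cos_pi (m : ℤ) (hm : m ≠ 0) :
    ∫ z in (0 : ℝ)..1, Real.cos (m * Real.pi * z) = 0 := by
  have hne : (m : ℝ) * Real.pi ≠ 0 := by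
    have : (m : ℝ) ≠ 0 := by exact_mod_cast hm
    positivity
  rw [intervalIntegral.integral_comp_mul_left (fun x => Real.cos x) hne, integral_cos]
  simp [Real.sin_int_mul_pi]

lemma orthonormal_ek : Orthonormal ℝ ek := by
  rw [orthonormal_iff_ite]
  intro i j
  rw [inner_ek, sineCoeff]
  have h1 : ∫ z in Ioo (0 : ℝ) 1, (ek j : ℝ → ℝ) z *
      (Real.sqrt 2 * Real.sin (((i + 1 : ℕ) : ℝ) * Real.pi * z)) =
      ∫ z in Ioo (0 : ℝ) 1, sfun j z * sfun i z := by
    apply integral_congr_ae
    filter_upwards [ofCont_coe (sfun_continuous j)] with z hz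
    have : (ek j : ℝ → ℝ) z = sfun j z := hz
    rw [this]; rfl
  rw [h1, ← integral_Ioc_eq_integral_Ioo, ← intervalIntegral.integral_of_le zero_le_one]
  have h2 : ∀ z : ℝ, sfun j z * sfun i z =
      Real.cos ((((j : ℤ) - (i : ℤ) : ℤ) : ℝ) * Real.pi * z) -
      Real.cos ((((j : ℤ) + (i : ℤ) + 2 : ℤ) : ℝ) * Real.pi * z) := by
    intro z
    unfold sfun
    have hs : Real.sqrt 2 * Real.sqrt 2 = 2 := Real.mul_self_sqrt (by norm_num)
    have e1 : (((j : ℤ) - (i : ℤ) : ℤ) : ℝ) * Real.pi * z =
        ((j + 1 : ℕ) : ℝ) * Real.pi * z - ((i + 1 : ℕ) : ℝ) * Real.pi * z := by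
      push_cast; ring
    have e2 : (((j : ℤ) + (i : ℤ) + 2 : ℤ) : ℝ) * Real.pi * z =
        ((j + 1 : ℕ) : ℝ) * Real.pi * z + ((i + 1 : ℕ) : ℝ) * Real.pi * z := by
      push_cast; ring
    rw [e1, e2, Real.cos_sub, Real.cos_add]
    linear_combination (Real.sin (((j + 1 : ℕ) : ℝ) * Real.pi * z) *
      Real.sin (((i + 1 : ℕ) : ℝ) * Real.pi * z)) * hs
  simp_rw [h2]
  rw [intervalIntegral.integral_sub]
  · rw [integral_cos_pi ((j : ℤ) + (i : ℤ) + 2) (by positivity)]
    by_cases hij : i = j
    · subst hij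
      simp
    · rw [integral_cos_pi ((j : ℤ) - (i : ℤ)) (by omega)]
      simp [hij]
  · apply Continuous.intervalIntegrable; fun_prop
  · apply Continuous.intervalIntegrable; fun_prop

lemma integrable_X (x : X) : Integrable (x : ℝ → ℝ) (volume.restrict (Ioo (0 : ℝ) 1)) :=
  (Lp.memLp x).integrable (by norm_num)

lemma integrable_X_mul (x : X) {g : ℝ → ℝ} (hg : Continuous g) :
    Integrable (fun z => x z * g z) (volume.restrict (Ioo (0 : ℝ) 1)) := by
  have := (Lp.memLp x).integrable_mul (memLp_of_continuous hg 2)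
  exact this

/-- moments against `sin(nπz) cos(πz)^m` vanish -/
lemma moment_zero (x : X) (hx : ∀ k, ⟪ek k, x⟫ = 0) (m : ℕ) : ∀ n : ℕ,
    ∫ z in Ioo (0 : ℝ) 1, x z * (Real.sin ((n : ℝ) * Real.pi * z) * Real.cos (Real.pi * z) ^ m)
      = 0 := by
  induction m with
  | zero =>
    intro n
    rcases n with _ | n
    · simp
    · have h := hx n
      rw [inner_ek, sineCoeff] at h
      have hs : Real.sqrt 2 ≠ 0 := by positivity
      have h3 : ∫ z in Ioo (0 : ℝ) 1, x z * (Real.sqrt 2 *
          Real.sin (((n + 1 : ℕ) : ℝ) * Real.pi * z)) = Real.sqrt 2 *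
          ∫ z in Ioo (0 : ℝ) 1, x z * (Real.sin (((n + 1 : ℕ) : ℝ) * Real.pi * z) *
          Real.cos (Real.pi * z) ^ 0) := by
        rw [← integral_const_mul]
        congr 1; ext z; ring
      rw [h3] at h
      exact (mul_eq_zero.mp h).resolve_left hs
  | succ m ih =>
    intro n
    rcases n with _ | n
    · simp
    · have h1 := ih (n + 2)
      have h2 := ih n
      have e : ∀ z : ℝ, x z * (Real.sin (((n + 1 : ℕ) : ℝ) * Real.pi * z) *
          Real.cos (Real.pi * z) ^ (m + 1)) =
          (1 / 2) * (x z * (Real.sin (((n + 2 : ℕ) : ℝ) * Real.pi * z) *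
            Real.cos (Real.pi * z) ^ m)) +
          (1 / 2) * (x z * (Real.sin ((n : ℝ) * Real.pi * z) * Real.cos (Real.pi * z) ^ m)) := by
        intro z
        have e1 : ((n + 2 : ℕ) : ℝ) * Real.pi * z =
            ((n + 1 : ℕ) : ℝ) * Real.pi * z + Real.pi * z := by push_cast; ring
        have e2 : (n : ℝ) * Real.pi * z =
            ((n + 1 : ℕ) : ℝ) * Real.pi * z - Real.pi * z := by push_cast; ring
        rw [e1, e2, Real.sin_add, Real.sin_sub]
        ring
      simp_rw [e]
      rw [integral_add, integral_const_mul, integral_const_mul, h1, h2]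
      · simp
      · exact (integrable_X_mul x (by fun_prop)).const_mul _
      · exact (integrable_X_mul x (by fun_prop)).const_mul _

lemma poly_zero (x : X) (hx : ∀ k, ⟪ek k, x⟫ = 0) (q : Polynomial ℝ) :
    ∫ z in Ioo (0 : ℝ) 1, x z * (Real.sin (Real.pi * z) * q.eval (Real.cos (Real.pi * z))) = 0 := by
  induction q using Polynomial.induction_on' with
  | add p q hp hq =>
    have e : ∀ z : ℝ, x z * (Real.sin (Real.pi * z) * (p + q).eval (Real.cos (Real.pi * z))) =
        x z * (Real.sin (Real.pi * z) * p.eval (Real.cos (Real.pi * z))) +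
        x z * (Real.sin (Real.pi * z) * q.eval (Real.cos (Real.pi * z))) := by
      intro z; rw [Polynomial.eval_add]; ring
    simp_rw [e]
    rw [integral_add, hp, hq, add_zero]
    · exact integrable_X_mul x (by fun_prop)
    · exact integrable_X_mul x (by fun_prop)
  | monomial n a =>
    have h := moment_zero x hx n 1
    have e : ∀ z : ℝ, x z * (Real.sin (Real.pi * z) *
        (Polynomial.monomial n a).eval (Real.cos (Real.pi * z))) =
        a * (x z * (Real.sin (((1 : ℕ) : ℝ) * Real.pi * z) * Real.cos (Real.pi * z) ^ n)) := by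
      intro z; rw [Polynomial.eval_monomial]; simp; ring
    simp_rw [e]
    rw [integral_const_mul, h, mul_zero]

lemma cont_zero (x : X) (hx : ∀ k, ⟪ek k, x⟫ = 0) {g : ℝ → ℝ} (hg : Continuous g) :
    ∫ z in Ioo (0 : ℝ) 1, x z * (Real.sin (Real.pi * z) * g z) = 0 := by
  set I := ∫ z in Ioo (0 : ℝ) 1, x z * (Real.sin (Real.pi * z) * g z) with hI
  set N := ∫ z in Ioo (0 : ℝ) 1, |x z| with hN
  have hN0 : 0 ≤ N := integral_nonneg fun z => abs_nonneg _
  have key : ∀ ε : ℝ, 0 < ε → |I| ≤ ε * N := by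
    intro ε hε
    obtain ⟨q, hq⟩ := exists_polynomial_near_of_continuousOn (-1) 1
      (fun w => g (Real.arccos w / Real.pi))
      (by
        apply Continuous.continuousOn
        exact hg.comp (Real.continuous_arccos.div_const _)) ε hε
    have hq' : ∀ z ∈ Ioo (0 : ℝ) 1, |q.eval (Real.cos (Real.pi * z)) - g z| < ε := by
      intro z hz
      have h := hq (Real.cos (Real.pi * z)) ⟨Real.neg_one_le_cos _, Real.cos_le_one _⟩
      have hpi := Real.pi_pos
      rw [Real.arccos_cos (by have := hz.1; positivity)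
        (by nlinarith [hz.2]), mul_div_cancel_left₀ _ hpi.ne'] at h
      exact h
    have h0 := poly_zero x hx q
    have e : I = ∫ z in Ioo (0 : ℝ) 1, x z * (Real.sin (Real.pi * z) *
        (g z - q.eval (Real.cos (Real.pi * z)))) := by
      have : ∫ z in Ioo (0 : ℝ) 1, x z * (Real.sin (Real.pi * z) *
        (g z - q.eval (Real.cos (Real.pi * z)))) = I -
        ∫ z in Ioo (0 : ℝ) 1, x z * (Real.sin (Real.pi * z) *
          q.eval (Real.cos (Real.pi * z))) := by
        rw [hI, ← integral_sub]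
        · congr 1; ext z; ring
        · exact integrable_X_mul x (by fun_prop)
        · exact integrable_X_mul x (by fun_prop)
      rw [this, h0, sub_zero]
    rw [e, hN, ← integral_const_mul]
    calc |∫ z in Ioo (0 : ℝ) 1, x z * (Real.sin (Real.pi * z) *
        (g z - q.eval (Real.cos (Real.pi * z))))|
        ≤ ∫ z in Ioo (0 : ℝ) 1, |x z * (Real.sin (Real.pi * z) *
        (g z - q.eval (Real.cos (Real.pi * z))))| := abs_integral_le_integral_abs
      _ ≤ ∫ z in Ioo (0 : ℝ) 1, ε * |x z| := by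
        apply setIntegral_mono_on
        · exact (integrable_X_mul x (by fun_prop)).abs
        · exact (integrable_X x).abs.const_mul _
        · exact measurableSet_Ioo
        · intro z hz
          rw [abs_mul, abs_mul]
          have h1 := hq' z hz
          rw [abs_sub_comm] at h1
          have h2 := Real.abs_sin_le_one (Real.pi * z)
          calc |x z| * (|Real.sin (Real.pi * z)| * |g z - q.eval (Real.cos (Real.pi * z))|)
              ≤ |x z| * (1 * ε) := by gcongr
            _ = ε * |x z| := by ring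
  by_contra hne
  have hpos : 0 < |I| := abs_pos.mpr hne
  have := key (|I| / (2 * (N + 1))) (by positivity)
  have h2 : |I| / (2 * (N + 1)) * N < |I| := by
    rw [div_mul_eq_mul_div, div_lt_iff₀ (by positivity)]
    nlinarith
  linarith

lemma eq_zero_of_inner_ek (x : X) (hx : ∀ k, ⟪ek k, x⟫ = 0) : x = 0 := by
  have hloc : LocallyIntegrable (fun z => x z * Real.sin (Real.pi * z))
      (volume.restrict (Ioo (0 : ℝ) 1)) :=
    (integrable_X_mul x (by fun_prop)).locallyIntegrable
  have h := ae_eq_zero_of_integral_contDiff_smul_eq_zero hloc (by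
    intro g hg _
    refine Eq.trans ?_ (cont_zero x hx hg.continuous)
    congr 1; ext z; simp only [smul_eq_mul]; ring)
  rw [ae_restrict_iff' measurableSet_Ioo] at h
  rw [Lp.eq_zero_iff_ae_eq_zero, EventuallyEq, ae_restrict_iff' measurableSet_Ioo]
  filter_upwards [h] with z hz hz'
  have h1 := hz hz'
  have h2 : 0 < Real.sin (Real.pi * z) := by
    apply Real.sin_pos_of_pos_of_lt_pi
    · have := hz'.1; positivity
    · nlinarith [hz'.2, Real.pi_pos]
  simpa using (mul_eq_zero.mp h1).resolve_right h2.ne'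

/-- The sine basis as a Hilbert basis. -/
def sineBasis : HilbertBasis ℕ ℝ X :=
  HilbertBasis.mkOfOrthogonalEqBot orthonormal_ek (by
    rw [Submodule.eq_bot_iff]
    intro x hx
    apply eq_zero_of_inner_ek
    intro k
    rw [Submodule.mem_orthogonal] at hx
    exact hx _ (Submodule.subset_span ⟨k, rfl⟩))

lemma sineBasis_apply (k : ℕ) : sineBasis k = ek k := by
  unfold sineBasis
  rw [HilbertBasis.coe_mkOfOrthogonalEqBot]

end

end Pool.Agent.Helper45.HeatISS
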