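import Mathlib
import Pool.Agent.Helper45.HeatBasis

/-!
# The solution map in sine coefficients, and its `L^8` admissibility estimate
-/

open MeasureTheory Set Filter Topology
open scoped ENNReal RealInnerProductSpace

namespace Pool.Agent.Helper45.HeatISS

noncomputable section

/-! ### Coefficients -/

lemma hasSum_sq (x : X) : HasSum (fun k => ⟪ek k, x⟫ ^ 2) (‖x‖ ^ 2) := by
  have h := sineBasis.hasSum_inner_mul_inner x x
  rw [real_inner_self_eq_norm_sq] at h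
  have e : (fun i => ⟪x, sineBasis i⟫ * ⟪sineBasis i, x⟫) = fun k => ⟪ek k, x⟫ ^ 2 := by
    ext k
    rw [sineBasis_apply, real_inner_comm (ek k) x]
    ring
  rw [e] at h
  exact h

lemma ext_coef {x y : X} (h : ∀ k, ⟪ek k, x⟫ = ⟪ek k, y⟫) : x = y := by
  rw [← sub_eq_zero]
  apply eq_zero_of_inner_ek
  intro k
  rw [inner_sub_right, h k, sub_self]

/-- the element of `X` with prescribed sine coefficients (zero if they are not in `ℓ²`) -/
def ofCoef (c : ℕ → ℝ) : X := by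
  classical
  exact if h : Memℓp c 2 then sineBasis.repr.symm ⟨c, h⟩ else 0

lemma inner_ofCoef {c : ℕ → ℝ} (hc : Summable (fun k => c k ^ 2)) (k : ℕ) :
    ⟪ek k, ofCoef c⟫ = c k := by
  have hm : Memℓp c 2 := by
    rw [memℓp_gen_iff (by norm_num)]
    convert hc using 2 with k
    simp
  unfold ofCoef
  rw [dif_pos hm, ← sineBasis_apply, ← sineBasis.repr_apply_apply]
  simp

lemma norm_sq_le_of_coef {x : X} {c : ℕ → ℝ} {S : ℝ} (hc : HasSum c S)
    (h : ∀ k, ⟪ek k, x⟫ ^ 2 ≤ c k) : ‖x‖ ^ 2 ≤ S :=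
  hasSum_le h (hasSum_sq x) hc

/-! ### Admissible inputs on a finite time interval -/

/-- essentially bounded on `(0,t]` -/
def Adm (u : ℝ → ℝ) (t : ℝ) : Prop := MemLp u ∞ (volume.restrict (Ioc (0 : ℝ) t))

lemma Adm.mul_cont {u : ℝ → ℝ} {t : ℝ} (hu : Adm u t) {f : ℝ → ℝ} (hf : Continuous f) :
    Adm (fun s => f s * u s) t := by
  obtain ⟨C, hC⟩ := (isCompact_Icc (a := (0 : ℝ)) (b := t)).exists_bound_of_continuousOn
    hf.continuousOn
  have h1 : MemLp f ∞ (volume.restrict (Ioc (0 : ℝ) t)) := by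
    refine MemLp.of_bound hf.aestronglyMeasurable C ?_
    rw [ae_restrict_iff' measurableSet_Ioc]
    exact Eventually.of_forall fun z hz => hC z (Ioc_subset_Icc_self hz)
  exact hu.mul (r := ∞) h1

lemma Adm.integrableOn {u : ℝ → ℝ} {t : ℝ} (hu : Adm u t) :
    IntegrableOn u (Ioc 0 t) volume :=
  MemLp.integrable le_top hu

lemma Adm.intervalIntegrable {u : ℝ → ℝ} {t : ℝ} (ht : 0 ≤ t) (hu : Adm u t) :
    IntervalIntegrable u volume 0 t := by
  rw [intervalIntegrable_iff_integrableOn_Ioc_of_le ht]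
  exact hu.integrableOn

lemma Adm.pow8 {u : ℝ → ℝ} {t : ℝ} (hu : Adm u t) : Adm (fun s => u s ^ 8) t := by
  have h2 : Adm (fun s => u s * u s) t := MemLp.mul (r := ∞) hu hu
  have h4 : Adm (fun s => (u s * u s) * (u s * u s)) t := MemLp.mul (r := ∞) h2 h2
  have h8 : Adm (fun s => ((u s * u s) * (u s * u s)) * ((u s * u s) * (u s * u s))) t :=
    MemLp.mul (r := ∞) h4 h4
  convert h8 using 2 with s
  ring

lemma Adm.mono {u : ℝ → ℝ} {t t' : ℝ} (h : t' ≤ t) (hu : Adm u t) : Adm u t' :=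
  MemLp.mono_measure (Measure.restrict_mono (Ioc_subset_Ioc_right h) le_rfl) hu

lemma integral_exp_le (ν : ℝ) (hν : 0 < ν) (t : ℝ) :
    ∫ s in (0 : ℝ)..t, Real.exp (-ν * (t - s)) ≤ ν⁻¹ := by
  have h : ∀ s ∈ uIcc (0 : ℝ) t, HasDerivAt (fun s => ν⁻¹ * Real.exp (-ν * (t - s)))
      (Real.exp (-ν * (t - s))) s := by
    intro s _
    have h1 : HasDerivAt (fun s => -ν * (t - s)) ν s := by
      have := ((hasDerivAt_id s).const_sub t).const_mul (-ν)
      simpa using this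
    have h2 := (h1.exp).const_mul ν⁻¹
    refine h2.congr_deriv ?_
    rw [mul_comm (Real.exp _) ν, ← mul_assoc, inv_mul_cancel₀ hν.ne', one_mul]
  rw [intervalIntegral.integral_eq_sub_of_hasDerivAt h
    (by apply Continuous.intervalIntegrable; fun_prop)]
  simp only [sub_self, mul_zero, Real.exp_zero, mul_one, sub_zero]
  have : 0 ≤ ν⁻¹ * Real.exp (-ν * t) := by positivity
  linarith

/-- the basic Hoelder estimate -/
lemma conv_le (ν : ℝ) (hν : 0 < ν) (t : ℝ) (ht : 0 ≤ t) {v : ℝ → ℝ} (hv : Adm v t) :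
    |∫ s in (0 : ℝ)..t, Real.exp (-ν * (t - s)) * v s| ≤
      (ν⁻¹) ^ ((7 : ℝ) / 8) * (∫ s in (0 : ℝ)..t, v s ^ 8) ^ ((1 : ℝ) / 8) := by
  set μ := volume.restrict (Ioc (0 : ℝ) t) with hμ
  rw [intervalIntegral.integral_of_le ht, intervalIntegral.integral_of_le ht]
  have hconj : ((8 : ℝ) / 7).HolderConjugate 8 := by
    rw [Real.holderConjugate_iff]
    norm_num
  have hfcont : Continuous fun s : ℝ => Real.exp (-ν * (t - s)) := by fun_prop
  have hf : MemLp (fun s : ℝ => Real.exp (-ν * (t - s))) (ENNReal.ofReal ((8 : ℝ) / 7)) μ := by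
    have h1 : MemLp (fun s : ℝ => Real.exp (-ν * (t - s))) ∞ μ := by
      refine MemLp.of_bound hfcont.aestronglyMeasurable 1 ?_
      rw [hμ, ae_restrict_iff' measurableSet_Ioc]
      refine Eventually.of_forall fun s hs => ?_
      rw [Real.norm_eq_abs, Real.abs_exp, Real.exp_le_one_iff]
      nlinarith [hs.2]
    exact h1.mono_exponent le_top
  have hg : MemLp (fun s => |v s|) (ENNReal.ofReal 8) μ := by
    have h1 : MemLp v (ENNReal.ofReal 8) μ := MemLp.mono_exponent hv le_top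
    exact h1.abs
  have hH := integral_mul_le_Lp_mul_Lq_of_nonneg hconj (μ := μ)
    (f := fun s : ℝ => Real.exp (-ν * (t - s))) (g := fun s => |v s|)
    (Eventually.of_forall fun s => (Real.exp_pos _).le)
    (Eventually.of_forall fun s => abs_nonneg _) hf hg
  have e1 : ∫ s, |v s| ^ (8 : ℝ) ∂μ = ∫ s, v s ^ 8 ∂μ := by
    congr 1; ext s
    have : |v s| ^ (8 : ℝ) = |v s| ^ (8 : ℕ) := by
      rw [← Real.rpow_natCast]; norm_num
    rw [this]
    exact Even.pow_abs (by decide) _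
  have e2 : ∫ s, Real.exp (-ν * (t - s)) ^ ((8 : ℝ) / 7) ∂μ ≤ ν⁻¹ := by
    refine le_trans ?_ (integral_exp_le ν hν t)
    rw [intervalIntegral.integral_of_le ht]
    apply setIntegral_mono_on
    · have : (fun s : ℝ => Real.exp (-ν * (t - s)) ^ ((8 : ℝ) / 7)) =
          fun s => Real.exp (-ν * (t - s) * (8 / 7)) := by
        ext s; rw [← Real.exp_mul]
      rw [this]
      exact (Continuous.integrableOn_Icc (by fun_prop)).mono_set Ioc_subset_Icc_self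
    · exact (Continuous.integrableOn_Icc (by fun_prop)).mono_set Ioc_subset_Icc_self
    · exact measurableSet_Ioc
    · intro s hs
      have h1 : Real.exp (-ν * (t - s)) ≤ 1 := by
        rw [Real.exp_le_one_iff]; nlinarith [hs.2]
      calc Real.exp (-ν * (t - s)) ^ ((8 : ℝ) / 7) ≤ Real.exp (-ν * (t - s)) ^ (1 : ℝ) :=
            Real.rpow_le_rpow_of_exponent_ge (Real.exp_pos _) h1 (by norm_num)
        _ = Real.exp (-ν * (t - s)) := Real.rpow_one _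
  have e3 : |∫ s, Real.exp (-ν * (t - s)) * v s ∂μ| ≤
      ∫ s, Real.exp (-ν * (t - s)) * |v s| ∂μ := by
    refine (abs_integral_le_integral_abs).trans (le_of_eq ?_)
    congr 1; ext s
    rw [abs_mul, Real.abs_exp]
  have h0 : 0 ≤ ∫ s, Real.exp (-ν * (t - s)) ^ ((8 : ℝ) / 7) ∂μ :=
    integral_nonneg fun s => Real.rpow_nonneg (Real.exp_pos _).le _
  have h0' : 0 ≤ ∫ s, v s ^ 8 ∂μ := integral_nonneg fun s => by positivity
  calc |∫ s, Real.exp (-ν * (t - s)) * v s ∂μ|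
      ≤ ∫ s, Real.exp (-ν * (t - s)) * |v s| ∂μ := e3
    _ ≤ (∫ s, Real.exp (-ν * (t - s)) ^ ((8 : ℝ) / 7) ∂μ) ^ (1 / ((8 : ℝ) / 7)) *
        (∫ s, |v s| ^ (8 : ℝ) ∂μ) ^ (1 / (8 : ℝ)) := hH
    _ ≤ (ν⁻¹) ^ ((7 : ℝ) / 8) * (∫ s, v s ^ 8 ∂μ) ^ ((1 : ℝ) / 8) := by
        rw [e1]
        have : (1 / ((8 : ℝ) / 7)) = 7 / 8 := by norm_num
        rw [this]
        gcongr

/-! ### Eigenvalues and input coefficients -/

/-- the eigenvalues `(k+1)² π²` -/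
def lam (k : ℕ) : ℝ := (((k + 1 : ℕ) : ℝ) * Real.pi) ^ 2

/-- the coefficients `⟨B 1, e_{k+1}⟩ = - e_{k+1}'(1)` -/
def bk (k : ℕ) : ℝ :=
  -(Real.sqrt 2 * (((k + 1 : ℕ) : ℝ) * Real.pi) * Real.cos (((k + 1 : ℕ) : ℝ) * Real.pi))

lemma lam_ge (k : ℕ) : 9 ≤ lam k := by
  unfold lam
  have h1 : (3 : ℝ) ≤ Real.pi := Real.pi_gt_three.le
  have h2 : (1 : ℝ) ≤ ((k + 1 : ℕ) : ℝ) := by push_cast; linarith [Nat.cast_nonneg (α := ℝ) k]
  nlinarith [mul_le_mul h2 h1 (by norm_num) (by linarith)]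

lemma bk_sq (k : ℕ) : bk k ^ 2 = 2 * lam k := by
  unfold bk lam
  have h1 : Real.sqrt 2 ^ 2 = 2 := Real.sq_sqrt (by norm_num)
  have h2 : Real.cos (((k + 1 : ℕ) : ℝ) * Real.pi) ^ 2 = 1 := by
    rw [Real.cos_nat_mul_pi, ← pow_mul, mul_comm, pow_mul]; simp
  calc (-(Real.sqrt 2 * (((k + 1 : ℕ) : ℝ) * Real.pi) *
        Real.cos (((k + 1 : ℕ) : ℝ) * Real.pi))) ^ 2
      = Real.sqrt 2 ^ 2 * (((k + 1 : ℕ) : ℝ) * Real.pi) ^ 2 *
        Real.cos (((k + 1 : ℕ) : ℝ) * Real.pi) ^ 2 := by ring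
    _ = _ := by rw [h1, h2]; ring

/-- the constants `c_k` in the admissibility estimate -/
def ck (k : ℕ) : ℝ := 2 * lam k * ((lam k - 1)⁻¹) ^ ((7 : ℝ) / 4)

lemma ck_nonneg (k : ℕ) : 0 ≤ ck k := by
  unfold ck
  have := lam_ge k
  have : 0 < lam k - 1 := by linarith
  positivity

lemma summable_ck : Summable ck := by
  have hs : Summable (fun k : ℕ => 8 * (1 / ((k + 1 : ℕ) : ℝ) ^ ((3 : ℝ) / 2))) := by
    apply Summable.mul_left
    have h := Real.summable_one_div_nat_rpow.mpr (show (1 : ℝ) < 3 / 2 by norm_num)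
    exact (summable_nat_add_iff 1).mpr h
  refine Summable.of_nonneg_of_le ck_nonneg (fun k => ?_) hs
  unfold ck
  have h9 := lam_ge k
  have hpos : 0 < lam k := by linarith
  have h1 : (lam k - 1)⁻¹ ≤ 2 * (lam k)⁻¹ := by
    rw [inv_le_comm₀ (by linarith) (by positivity)]
    rw [mul_inv, inv_inv]
    linarith
  have hn : (0 : ℝ) < ((k + 1 : ℕ) : ℝ) := by positivity
  have hle : ((k + 1 : ℕ) : ℝ) ^ 2 ≤ lam k := by
    unfold lam
    have h1 : (3 : ℝ) ≤ Real.pi := Real.pi_gt_three.le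
    rw [mul_pow]
    have : (1 : ℝ) ≤ Real.pi ^ 2 := by nlinarith
    nlinarith [sq_nonneg (((k + 1 : ℕ) : ℝ))]
  calc 2 * lam k * ((lam k - 1)⁻¹) ^ ((7 : ℝ) / 4)
      ≤ 2 * lam k * (2 * (lam k)⁻¹) ^ ((7 : ℝ) / 4) := by
        gcongr
        · have : 0 < lam k - 1 := by linarith
          positivity
    _ = 2 * lam k * (2 ^ ((7 : ℝ) / 4) * (lam k) ^ (-((7 : ℝ) / 4))) := by
        rw [Real.mul_rpow (by norm_num) (by positivity), Real.inv_rpow hpos.le,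
          ← Real.rpow_neg hpos.le]
    _ = 2 * 2 ^ ((7 : ℝ) / 4) * (lam k) ^ (-((3 : ℝ) / 4)) := by
        have : lam k * (lam k) ^ (-((7 : ℝ) / 4)) = (lam k) ^ (-((3 : ℝ) / 4)) := by
          conv_lhs => rw [← Real.rpow_one (lam k), ← Real.rpow_mul hpos.le,
            ← Real.rpow_add hpos]
          norm_num
        rw [← this]; ring
    _ ≤ 2 * 2 ^ (2 : ℝ) * (((k + 1 : ℕ) : ℝ) ^ 2) ^ (-((3 : ℝ) / 4)) := by
        apply mul_le_mul
        · apply mul_le_mul_of_nonneg_left _ (by norm_num)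
          exact Real.rpow_le_rpow_of_exponent_le (by norm_num) (by norm_num)
        · exact Real.rpow_le_rpow_of_nonpos (by positivity) hle (by norm_num)
        · positivity
        · positivity
    _ = 8 * (1 / ((k + 1 : ℕ) : ℝ) ^ ((3 : ℝ) / 2)) := by
        have e1 : (((k + 1 : ℕ) : ℝ) ^ 2) ^ (-((3 : ℝ) / 4)) =
            1 / ((k + 1 : ℕ) : ℝ) ^ ((3 : ℝ) / 2) := by
          rw [← Real.rpow_natCast, ← Real.rpow_mul hn.le, one_div, ← Real.rpow_neg hn.le]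
          norm_num
        rw [e1]; norm_num

/-- `S = ∑ c_k` -/
def S : ℝ := ∑' k, ck k

lemma S_nonneg : 0 ≤ S := tsum_nonneg ck_nonneg

lemma hasSum_ck : HasSum ck S := summable_ck.hasSum

/-! ### The solution map -/

/-- coefficients of the input part `∫₀ᵗ T(t-s) B u(s) ds` -/
def wk (t : ℝ) (u : ℝ → ℝ) (k : ℕ) : ℝ :=
  ∫ s in (0 : ℝ)..t, Real.exp (-lam k * (t - s)) * (bk k * u s)

/-- the weighted energy of the input -/
def energy (t : ℝ) (u : ℝ → ℝ) : ℝ := ∫ s in (0 : ℝ)..t, (Real.exp s * u s) ^ 8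

lemma energy_nonneg {t : ℝ} (ht : 0 ≤ t) (u : ℝ → ℝ) : 0 ≤ energy t u := by
  unfold energy
  apply intervalIntegral.integral_nonneg ht
  intro s _; positivity

lemma exp_mul_wk_sq_le {t : ℝ} (ht : 0 ≤ t) {u : ℝ → ℝ} (hu : Adm u t) (k : ℕ) :
    (Real.exp t * wk t u k) ^ 2 ≤ ck k * (energy t u) ^ ((1 : ℝ) / 4) := by
  have h9 := lam_ge k
  have hν : 0 < lam k - 1 := by linarith
  have e1 : Real.exp t * wk t u k = bk k *
      ∫ s in (0 : ℝ)..t, Real.exp (-(lam k - 1) * (t - s)) * (Real.exp s * u s) := by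
    unfold wk
    rw [← intervalIntegral.integral_const_mul, ← intervalIntegral.integral_const_mul]
    congr 1; ext s
    have : Real.exp t * Real.exp (-lam k * (t - s)) =
        Real.exp (-(lam k - 1) * (t - s)) * Real.exp s := by
      rw [← Real.exp_add, ← Real.exp_add]; congr 1; ring
    calc Real.exp t * (Real.exp (-lam k * (t - s)) * (bk k * u s))
        = (Real.exp t * Real.exp (-lam k * (t - s))) * (bk k * u s) := by ring
      _ = _ := by rw [this]; ring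
  have h := conv_le (lam k - 1) hν t ht (hu.mul_cont Real.continuous_exp)
  have hE := energy_nonneg ht u
  rw [e1, mul_pow, bk_sq]
  have h2 : (∫ s in (0 : ℝ)..t, Real.exp (-(lam k - 1) * (t - s)) * (Real.exp s * u s)) ^ 2 ≤
      (((lam k - 1)⁻¹) ^ ((7 : ℝ) / 8) * (energy t u) ^ ((1 : ℝ) / 8)) ^ 2 := by
    rw [← sq_abs]
    exact pow_le_pow_left₀ (abs_nonneg _) h 2
  have h3 : (((lam k - 1)⁻¹) ^ ((7 : ℝ) / 8) * (energy t u) ^ ((1 : ℝ) / 8)) ^ 2 =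
      ((lam k - 1)⁻¹) ^ ((7 : ℝ) / 4) * (energy t u) ^ ((1 : ℝ) / 4) := by
    rw [mul_pow, ← Real.rpow_natCast (_ ^ ((7 : ℝ) / 8)), ← Real.rpow_mul (by positivity),
      ← Real.rpow_natCast (_ ^ ((1 : ℝ) / 8)), ← Real.rpow_mul hE]
    norm_num
  rw [h3] at h2
  unfold ck
  calc 2 * lam k * (∫ s in (0 : ℝ)..t,
        Real.exp (-(lam k - 1) * (t - s)) * (Real.exp s * u s)) ^ 2
      ≤ 2 * lam k * (((lam k - 1)⁻¹) ^ ((7 : ℝ) / 4) * (energy t u) ^ ((1 : ℝ) / 4)) := by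
        gcongr
    _ = _ := by ring

lemma wk_sq_le {t : ℝ} (ht : 0 ≤ t) {u : ℝ → ℝ} (hu : Adm u t) (k : ℕ) :
    (wk t u k) ^ 2 ≤ ck k * (energy t u) ^ ((1 : ℝ) / 4) := by
  refine le_trans ?_ (exp_mul_wk_sq_le ht hu k)
  rw [mul_pow]
  have : 1 ≤ Real.exp t ^ 2 := by
    have := Real.one_le_exp ht
    nlinarith
  nlinarith [sq_nonneg (wk t u k)]

lemma summable_wk_sq {t : ℝ} (ht : 0 ≤ t) {u : ℝ → ℝ} (hu : Adm u t) :
    Summable (fun k => wk t u k ^ 2) :=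
  Summable.of_nonneg_of_le (fun _ => sq_nonneg _) (wk_sq_le ht hu) (summable_ck.mul_right _)

/-- coefficients of the homogeneous part `T(t) x` -/
def hk (t : ℝ) (x : X) (k : ℕ) : ℝ := Real.exp (-lam k * t) * ⟪ek k, x⟫

lemma exp_mul_hk_sq_le {t : ℝ} (ht : 0 ≤ t) (x : X) (k : ℕ) :
    (Real.exp t * hk t x k) ^ 2 ≤ ⟪ek k, x⟫ ^ 2 := by
  unfold hk
  have h9 := lam_ge k
  have h1 : Real.exp t * (Real.exp (-lam k * t) * ⟪ek k, x⟫) =
      Real.exp (-(lam k - 1) * t) * ⟪ek k, x⟫ := by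
    rw [← mul_assoc, ← Real.exp_add]; congr 2; ring
  rw [h1, mul_pow]
  have h2 : Real.exp (-(lam k - 1) * t) ≤ 1 := by
    rw [Real.exp_le_one_iff]; nlinarith
  have h3 : Real.exp (-(lam k - 1) * t) ^ 2 ≤ 1 := by
    have := Real.exp_pos (-(lam k - 1) * t); nlinarith
  nlinarith [sq_nonneg ⟪ek k, x⟫]

lemma hk_sq_le {t : ℝ} (ht : 0 ≤ t) (x : X) (k : ℕ) : (hk t x k) ^ 2 ≤ ⟪ek k, x⟫ ^ 2 := by
  refine le_trans ?_ (exp_mul_hk_sq_le ht x k)
  rw [mul_pow]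
  have : 1 ≤ Real.exp t ^ 2 := by
    have := Real.one_le_exp ht
    nlinarith
  nlinarith [sq_nonneg (hk t x k)]

lemma summable_hk_sq {t : ℝ} (ht : 0 ≤ t) (x : X) : Summable (fun k => hk t x k ^ 2) :=
  Summable.of_nonneg_of_le (fun _ => sq_nonneg _) (hk_sq_le ht x) (hasSum_sq x).summable

/-- homogeneous part -/
def T (t : ℝ) (x : X) : X := ofCoef (hk t x)

/-- input part -/
def W (t : ℝ) (u : ℝ → ℝ) : X := ofCoef (wk t u)

/-- solution map -/
def Phi (t : ℝ) (x : X) (u : ℝ → ℝ) : X := T t x + W t u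

lemma inner_T {t : ℝ} (ht : 0 ≤ t) (x : X) (k : ℕ) : ⟪ek k, T t x⟫ = hk t x k :=
  inner_ofCoef (summable_hk_sq ht x) k

lemma inner_W {t : ℝ} (ht : 0 ≤ t) {u : ℝ → ℝ} (hu : Adm u t) (k : ℕ) :
    ⟪ek k, W t u⟫ = wk t u k :=
  inner_ofCoef (summable_wk_sq ht hu) k

lemma inner_Phi {t : ℝ} (ht : 0 ≤ t) (x : X) {u : ℝ → ℝ} (hu : Adm u t) (k : ℕ) :
    ⟪ek k, Phi t x u⟫ = hk t x k + wk t u k := by
  unfold Phi
  rw [inner_add_right, inner_T ht, inner_W ht hu]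

lemma norm_T_le {t : ℝ} (ht : 0 ≤ t) (x : X) : ‖Real.exp t • T t x‖ ≤ ‖x‖ := by
  have h : ‖Real.exp t • T t x‖ ^ 2 ≤ ‖x‖ ^ 2 := by
    apply norm_sq_le_of_coef (hasSum_sq x)
    intro k
    rw [inner_smul_right, inner_T ht]
    exact exp_mul_hk_sq_le ht x k
  exact le_of_sq_le_sq h (norm_nonneg _) |> fun h => h

lemma norm_W_sq_le {t : ℝ} (ht : 0 ≤ t) {u : ℝ → ℝ} (hu : Adm u t) :
    ‖Real.exp t • W t u‖ ^ 2 ≤ S * (energy t u) ^ ((1 : ℝ) / 4) := by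
  apply norm_sq_le_of_coef (hasSum_ck.mul_right _)
  intro k
  rw [inner_smul_right, inner_W ht hu]
  exact exp_mul_wk_sq_le ht hu k

lemma norm_W_pow8_le {t : ℝ} (ht : 0 ≤ t) {u : ℝ → ℝ} (hu : Adm u t) :
    ‖Real.exp t • W t u‖ ^ 8 ≤ S ^ 4 * energy t u := by
  have h := pow_le_pow_left₀ (by positivity) (norm_W_sq_le ht hu) 4
  have hE := energy_nonneg ht u
  have e1 : (S * (energy t u) ^ ((1 : ℝ) / 4)) ^ 4 = S ^ 4 * energy t u := by
    rw [mul_pow, ← Real.rpow_natCast (_ ^ ((1 : ℝ) / 4)), ← Real.rpow_mul hE]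
    norm_num
  rw [e1] at h
  calc ‖Real.exp t • W t u‖ ^ 8 = (‖Real.exp t • W t u‖ ^ 2) ^ 4 := by ring
    _ ≤ _ := h

/-- The gain estimate. -/
lemma norm_Phi_pow8_le {t : ℝ} (ht : 0 ≤ t) (x : X) {u : ℝ → ℝ} (hu : Adm u t) :
    ‖Real.exp t • Phi t x u‖ ^ 8 ≤ 128 * ‖x‖ ^ 8 + 128 * S ^ 4 * energy t u := by
  have h1 : ‖Real.exp t • Phi t x u‖ ≤ ‖x‖ + ‖Real.exp t • W t u‖ := by
    unfold Phi
    rw [smul_add]
    exact (norm_add_le _ _).trans (by gcongr; exact norm_T_le ht x)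
  calc ‖Real.exp t • Phi t x u‖ ^ 8 ≤ (‖x‖ + ‖Real.exp t • W t u‖) ^ 8 := by gcongr
    _ ≤ 2 ^ (8 - 1) * (‖x‖ ^ 8 + ‖Real.exp t • W t u‖ ^ 8) :=
        add_pow_le (norm_nonneg _) (norm_nonneg _) 8
    _ ≤ 2 ^ (8 - 1) * (‖x‖ ^ 8 + S ^ 4 * energy t u) := by
        gcongr; exact norm_W_pow8_le ht hu
    _ = _ := by norm_num; ring

end

end Pool.Agent.Helper45.HeatISS
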