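import Mathlib
import Pool.Agent.Helper45.HeatFlow

/-!
# The Lyapunov function (available storage) and the dynamic programming inequality
-/

open MeasureTheory Set Filter Topology
open scoped ENNReal RealInnerProductSpace

namespace Pool.Agent.Helper45.HeatISS

noncomputable section

/-- Borel measurable bounded inputs -/
def Inp : Type := {u : ℝ → ℝ // Measurable u ∧ ∃ M : ℝ, ∀ s, |u s| ≤ M}

lemma Inp.adm (u : Inp) (t : ℝ) : Adm u.1 t := by
  obtain ⟨M, hM⟩ := u.2.2
  exact MemLp.of_bound u.2.1.aestronglyMeasurable M (Eventually.of_forall hM)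

/-- the zero input -/
def Inp.zero : Inp := ⟨fun _ => 0, measurable_const, 0, fun s => by simp⟩

/-- concatenation of inputs at time `h` -/
def Inp.concat (h : ℝ) (u v : Inp) : Inp :=
  ⟨fun s => if s ≤ h then u.1 s else v.1 (s - h), by
    apply Measurable.ite measurableSet_Iic u.2.1
    exact v.2.1.comp (measurable_id.sub_const h), by
    obtain ⟨M, hM⟩ := u.2.2
    obtain ⟨N, hN⟩ := v.2.2
    refine ⟨max M N, fun s => ?_⟩
    dsimp only
    split_ifs with hs
    · exact (hM s).trans (le_max_left _ _)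
    · exact (hN _).trans (le_max_right _ _)⟩

/-- interval integrability of continuous times input -/
lemma Inp.intInt (u : Inp) {f : ℝ → ℝ} (hf : Continuous f) (a b : ℝ) :
    IntervalIntegrable (fun s => f s * u.1 s) volume a b := by
  obtain ⟨M, hM⟩ := u.2.2
  apply IntervalIntegrable.continuousOn_mul _ hf.continuousOn
  rw [intervalIntegrable_iff]
  apply Measure.integrableOn_of_bounded (M := M)
  · simp
  · exact u.2.1.aestronglyMeasurable
  · exact Eventually.of_forall hM

/-- interval integrability of continuous times 8-th power of the input -/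
lemma Inp.intInt8 (u : Inp) {f : ℝ → ℝ} (hf : Continuous f) (a b : ℝ) :
    IntervalIntegrable (fun s => f s * u.1 s ^ 8) volume a b := by
  obtain ⟨M, hM⟩ := u.2.2
  have h := Inp.intInt ⟨fun s => u.1 s ^ 8, u.2.1.pow_const 8, M ^ 8, fun s => by
    rw [abs_pow]; exact pow_le_pow_left₀ (abs_nonneg _) (hM s) 8⟩ hf a b
  exact h

/-- the functional whose supremum is the Lyapunov function -/
def J (p : {t : ℝ // 0 ≤ t} × Inp) (x : X) : ℝ :=
  ‖Real.exp p.1.1 • Phi p.1.1 x p.2.1‖ ^ 8 - 128 * S ^ 4 * energy p.1.1 p.2.1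

/-- the Lyapunov function -/
def V (x : X) : ℝ := ⨆ p : {t : ℝ // 0 ≤ t} × Inp, J p x

instance : Nonempty ({t : ℝ // 0 ≤ t} × Inp) := ⟨(⟨0, le_rfl⟩, Inp.zero)⟩

lemma J_le (p : {t : ℝ // 0 ≤ t} × Inp) (x : X) : J p x ≤ 128 * ‖x‖ ^ 8 := by
  unfold J
  have := norm_Phi_pow8_le p.1.2 x (p.2.adm p.1.1)
  linarith

lemma bddAbove_J (x : X) : BddAbove (range fun p => J p x) :=
  ⟨128 * ‖x‖ ^ 8, by rintro _ ⟨p, rfl⟩; exact J_le p x⟩

lemma V_le (x : X) : V x ≤ 128 * ‖x‖ ^ 8 := ciSup_le fun p => J_le p x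

lemma J_le_V (p : {t : ℝ // 0 ≤ t} × Inp) (x : X) : J p x ≤ V x := le_ciSup (bddAbove_J x) p

lemma Phi_zero (x : X) (u : Inp) : Phi 0 x u.1 = x := by
  apply ext_coef
  intro k
  rw [inner_Phi le_rfl x (u.adm 0)]
  simp [hk, wk]

lemma le_V (x : X) : ‖x‖ ^ 8 ≤ V x := by
  refine le_trans ?_ (J_le_V (⟨0, le_rfl⟩, Inp.zero) x)
  unfold J
  simp [Phi_zero, energy]

/-! ### Convexity and continuity -/

lemma hk_combo {a b : ℝ} (t : ℝ) (x y : X) (k : ℕ) :
    hk t (a • x + b • y) k = a * hk t x k + b * hk t y k := by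
  unfold hk
  rw [inner_add_right, inner_smul_right, inner_smul_right]
  ring

lemma Phi_combo {a b : ℝ} (hab : a + b = 1) {t : ℝ} (ht : 0 ≤ t) (x y : X) (u : Inp) :
    Phi t (a • x + b • y) u.1 = a • Phi t x u.1 + b • Phi t y u.1 := by
  apply ext_coef
  intro k
  rw [inner_add_right, inner_smul_right, inner_smul_right, inner_Phi ht _ (u.adm t),
    inner_Phi ht _ (u.adm t), inner_Phi ht _ (u.adm t), hk_combo]
  have : b = 1 - a := by linarith
  subst this
  ring

lemma J_combo (p : {t : ℝ // 0 ≤ t} × Inp) {a b : ℝ} (ha : 0 ≤ a) (hb : 0 ≤ b)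
    (hab : a + b = 1) (x y : X) : J p (a • x + b • y) ≤ a * J p x + b * J p y := by
  have hconv : ConvexOn ℝ univ (fun z : X => ‖z‖ ^ 8) :=
    ConvexOn.pow convexOn_univ_norm (fun z _ => norm_nonneg z) 8
  have h := hconv.2 (mem_univ (Real.exp p.1.1 • Phi p.1.1 x p.2.1))
    (mem_univ (Real.exp p.1.1 • Phi p.1.1 y p.2.1)) ha hb hab
  unfold J
  rw [Phi_combo hab p.1.2]
  have e : Real.exp p.1.1 • (a • Phi p.1.1 x p.2.1 + b • Phi p.1.1 y p.2.1) =
      a • (Real.exp p.1.1 • Phi p.1.1 x p.2.1) + b • (Real.exp p.1.1 • Phi p.1.1 y p.2.1) := by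
    rw [smul_add, smul_comm _ a, smul_comm _ b]
  rw [e]
  simp only [smul_eq_mul] at h
  have hb' : b = 1 - a := by linarith
  subst hb'
  nlinarith [h]

lemma convexOn_V : ConvexOn ℝ univ V := by
  refine ⟨convex_univ, ?_⟩
  intro x _ y _ a b ha hb hab
  apply ciSup_le
  intro p
  refine (J_combo p ha hb hab x y).trans ?_
  simp only [smul_eq_mul]
  gcongr
  · exact J_le_V p x
  · exact J_le_V p y

lemma continuous_V : Continuous V := by
  rw [← continuousOn_univ]
  refine ((convexOn_V.continuousOn_tfae isOpen_univ ⟨0, mem_univ _⟩).out 4 1).mp ?_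
  intro x₀ _
  refine ⟨128 * (‖x₀‖ + 1) ^ 8, ?_⟩
  rw [eventually_map]
  filter_upwards [Metric.ball_mem_nhds x₀ one_pos] with x hx
  refine (V_le x).trans ?_
  have : ‖x‖ ≤ ‖x₀‖ + 1 := by
    have h1 : ‖x - x₀‖ < 1 := by rwa [← dist_eq_norm]
    have h2 := norm_sub_norm_le x x₀
    linarith
  gcongr

/-! ### Dynamic programming -/

lemma wk_concat {h t : ℝ} (hh : 0 ≤ h) (ht : 0 ≤ t) (u v : Inp) (k : ℕ) :
    wk (h + t) (Inp.concat h u v).1 k = Real.exp (-lam k * t) * wk h u.1 k + wk t v.1 k := by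
  have hc : ∀ a b : ℝ, IntervalIntegrable
      (fun s => Real.exp (-lam k * (h + t - s)) * (bk k * (Inp.concat h u v).1 s))
      volume a b := by
    intro a b
    have := (Inp.concat h u v).intInt
      (f := fun s => Real.exp (-lam k * (h + t - s)) * bk k) (by fun_prop) a b
    convert this using 2
    ring
  unfold wk
  rw [← intervalIntegral.integral_add_adjacent_intervals (hc 0 h) (hc h (h + t))]
  congr 1
  · rw [← intervalIntegral.integral_const_mul]
    apply intervalIntegral.integral_congr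
    intro s hs
    rw [uIcc_of_le hh] at hs
    have e1 : (Inp.concat h u v).1 s = u.1 s := by
      simp only [Inp.concat, if_pos hs.2]
    simp only
    rw [e1]
    have e2 : Real.exp (-lam k * (h + t - s)) =
        Real.exp (-lam k * t) * Real.exp (-lam k * (h - s)) := by
      rw [← Real.exp_add]; congr 1; ring
    rw [e2]; ring
  · have e := intervalIntegral.integral_comp_add_right (a := 0) (b := t)
      (fun s => Real.exp (-lam k * (h + t - s)) * (bk k * (Inp.concat h u v).1 s)) h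
    rw [zero_add, add_comm t h] at e
    rw [← e]
    apply intervalIntegral.integral_congr_ae
    filter_upwards with s hs
    rw [uIoc_of_le ht] at hs
    have e1 : (Inp.concat h u v).1 (s + h) = v.1 s := by
      have : ¬ (s + h ≤ h) := by linarith [hs.1]
      simp only [Inp.concat, if_neg this, add_sub_cancel_right]
    rw [e1]
    have : h + t - (s + h) = t - s := by ring
    rw [this]

lemma energy_concat {h t : ℝ} (hh : 0 ≤ h) (ht : 0 ≤ t) (u v : Inp) :
    energy (h + t) (Inp.concat h u v).1 = energy h u.1 + Real.exp h ^ 8 * energy t v.1 := by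
  have hc : ∀ a b : ℝ, IntervalIntegrable
      (fun s => (Real.exp s * (Inp.concat h u v).1 s) ^ 8) volume a b := by
    intro a b
    have := (Inp.concat h u v).intInt8
      (f := fun s => Real.exp s ^ 8) (by fun_prop) a b
    convert this using 2
    ring
  unfold energy
  rw [← intervalIntegral.integral_add_adjacent_intervals (hc 0 h) (hc h (h + t))]
  congr 1
  · apply intervalIntegral.integral_congr
    intro s hs
    rw [uIcc_of_le hh] at hs
    have e1 : (Inp.concat h u v).1 s = u.1 s := by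
      simp only [Inp.concat, if_pos hs.2]
    simp only
    rw [e1]
  · have e := intervalIntegral.integral_comp_add_right (a := 0) (b := t)
      (fun s => (Real.exp s * (Inp.concat h u v).1 s) ^ 8) h
    rw [zero_add, add_comm t h] at e
    rw [← e, ← intervalIntegral.integral_const_mul]
    apply intervalIntegral.integral_congr_ae
    filter_upwards with s hs
    rw [uIoc_of_le ht] at hs
    have e1 : (Inp.concat h u v).1 (s + h) = v.1 s := by
      have : ¬ (s + h ≤ h) := by linarith [hs.1]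
      simp only [Inp.concat, if_neg this, add_sub_cancel_right]
    rw [e1, Real.exp_add]
    ring

lemma Phi_concat {h t : ℝ} (hh : 0 ≤ h) (ht : 0 ≤ t) (x : X) (u v : Inp) :
    Phi (h + t) x (Inp.concat h u v).1 = Phi t (Phi h x u.1) v.1 := by
  apply ext_coef
  intro k
  rw [inner_Phi (by positivity) x ((Inp.concat h u v).adm _), inner_Phi ht _ (v.adm t),
    wk_concat hh ht]
  unfold hk
  rw [inner_Phi hh x (u.adm h)]
  unfold hk
  have e2 : Real.exp (-lam k * (h + t)) =
      Real.exp (-lam k * t) * Real.exp (-lam k * h) := by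
    rw [← Real.exp_add]; congr 1; ring
  rw [e2]; ring

lemma dpp {h : ℝ} (hh : 0 ≤ h) (x : X) (u : Inp) :
    Real.exp h ^ 8 * V (Phi h x u.1) ≤ V x + 128 * S ^ 4 * energy h u.1 := by
  have hpos : 0 < Real.exp h ^ 8 := by positivity
  rw [← le_div_iff₀' hpos]
  apply ciSup_le
  rintro ⟨⟨t, ht⟩, v⟩
  rw [le_div_iff₀' hpos]
  have h1 := J_le_V (⟨h + t, by positivity⟩, Inp.concat h u v) x
  unfold J at h1 ⊢
  simp only at h1 ⊢
  rw [Phi_concat hh ht, energy_concat hh ht] at h1
  have e1 : Real.exp (h + t) • Phi t (Phi h x u.1) v.1 =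
      Real.exp h • (Real.exp t • Phi t (Phi h x u.1) v.1) := by
    rw [smul_smul, Real.exp_add]
  rw [e1, norm_smul (Real.exp h), mul_pow, Real.norm_eq_abs, Real.abs_exp] at h1
  linarith

lemma energy_le {h : ℝ} (hh : 0 ≤ h) (u : Inp) {M : ℝ} (hM : ∀ s, |u.1 s| ≤ M) :
    energy h u.1 ≤ Real.exp h ^ 8 * M ^ 8 * h := by
  unfold energy
  have h1 : ∫ s in (0 : ℝ)..h, (Real.exp s * u.1 s) ^ 8 ≤
      ∫ s in (0 : ℝ)..h, Real.exp h ^ 8 * M ^ 8 := by
    apply intervalIntegral.integral_mono_on hh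
    · have := u.intInt8 (f := fun s => Real.exp s ^ 8) (by fun_prop) 0 h
      convert this using 2
      ring
    · exact intervalIntegrable_const
    · intro s hs
      rw [mul_pow]
      have e1 : u.1 s ^ 8 = |u.1 s| ^ 8 := (Even.pow_abs (by decide) _).symm
      rw [e1]
      gcongr
      · exact hs.2
      · exact hM s
  refine h1.trans (le_of_eq ?_)
  rw [intervalIntegral.integral_const, smul_eq_mul]
  ring

lemma V_Phi_le {h : ℝ} (hh : 0 < h) (x : X) (u : Inp) {M : ℝ} (hM : ∀ s, |u.1 s| ≤ M) :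
    (V (Phi h x u.1) - V x) / h ≤ (Real.exp (-8 * h) - 1) / h * V x + 128 * S ^ 4 * M ^ 8 := by
  have h1 := dpp hh.le x u
  have h2 := energy_le hh.le u hM
  have hS : 0 ≤ 128 * S ^ 4 := by have := S_nonneg; positivity
  have e8 : Real.exp h ^ 8 * Real.exp (-8 * h) = 1 := by
    rw [← Real.exp_nat_mul, ← Real.exp_add]
    norm_num
  have hpos : 0 < Real.exp (-8 * h) := Real.exp_pos _
  have h3 : V (Phi h x u.1) ≤ Real.exp (-8 * h) * V x + 128 * S ^ 4 * M ^ 8 * h := by
    calc V (Phi h x u.1) = (Real.exp h ^ 8 * Real.exp (-8 * h)) * V (Phi h x u.1) := by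
          rw [e8, one_mul]
      _ = Real.exp (-8 * h) * (Real.exp h ^ 8 * V (Phi h x u.1)) := by ring
      _ ≤ Real.exp (-8 * h) * (V x + 128 * S ^ 4 * energy h u.1) := by gcongr
      _ ≤ Real.exp (-8 * h) * (V x + 128 * S ^ 4 * (Real.exp h ^ 8 * M ^ 8 * h)) := by gcongr
      _ = Real.exp (-8 * h) * V x +
          (Real.exp h ^ 8 * Real.exp (-8 * h)) * (128 * S ^ 4 * M ^ 8 * h) := by ring
      _ = _ := by rw [e8, one_mul]
  rw [div_mul_eq_mul_div, div_add' _ _ _ hh.ne', div_le_div_iff_of_pos_right hh]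
  linarith

lemma limsup_V_le (x : X) (u : Inp) {M : ℝ} (hM : ∀ s, |u.1 s| ≤ M) :
    limsup (fun h : ℝ => (((V (Phi h x u.1) - V x) / h : ℝ) : EReal)) (𝓝[>] 0) ≤
      ((-(8 * ‖x‖ ^ 8) + 128 * S ^ 4 * M ^ 8 : ℝ) : EReal) := by
  have hd : HasDerivAt (fun h : ℝ => Real.exp (-8 * h)) (-8) 0 := by
    have h1 : HasDerivAt (fun h : ℝ => -8 * h) (-8) 0 := by
      simpa using (hasDerivAt_id (0 : ℝ)).const_mul (-8)
    simpa using h1.exp
  have ht : Tendsto (fun h : ℝ => (Real.exp (-8 * h) - 1) / h) (𝓝[>] 0) (𝓝 (-8)) := by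
    have := hd.tendsto_slope_zero
    have h2 : Tendsto (fun t : ℝ => t⁻¹ • (Real.exp (-8 * (0 + t)) - Real.exp (-8 * 0)))
        (𝓝[>] 0) (𝓝 (-8)) :=
      this.mono_left (nhdsWithin_mono _ (fun z hz => ne_of_gt hz))
    refine h2.congr fun t => ?_
    simp only [zero_add, mul_zero, Real.exp_zero, smul_eq_mul]
    rw [div_eq_inv_mul]
  have ht2 : Tendsto (fun h : ℝ => (Real.exp (-8 * h) - 1) / h * V x + 128 * S ^ 4 * M ^ 8)
      (𝓝[>] 0) (𝓝 (-8 * V x + 128 * S ^ 4 * M ^ 8)) :=
    (ht.mul_const _).add_const _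
  have ht3 : Tendsto (fun h : ℝ => (((Real.exp (-8 * h) - 1) / h * V x +
      128 * S ^ 4 * M ^ 8 : ℝ) : EReal))
      (𝓝[>] 0) (𝓝 ((-8 * V x + 128 * S ^ 4 * M ^ 8 : ℝ) : EReal)) :=
    (continuous_coe_real_ereal.tendsto _).comp ht2
  calc limsup (fun h : ℝ => (((V (Phi h x u.1) - V x) / h : ℝ) : EReal)) (𝓝[>] 0)
      ≤ limsup (fun h : ℝ => (((Real.exp (-8 * h) - 1) / h * V x +
        128 * S ^ 4 * M ^ 8 : ℝ) : EReal)) (𝓝[>] 0) := by
        refine limsup_le_limsup ?_ (by isBoundedDefault) (by isBoundedDefault)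
        filter_upwards [self_mem_nhdsWithin] with h hh
        exact_mod_cast V_Phi_le hh x u hM
    _ = ((-8 * V x + 128 * S ^ 4 * M ^ 8 : ℝ) : EReal) := ht3.limsup_eq
    _ ≤ _ := by
        have := le_V x
        exact_mod_cast (by linarith : -8 * V x + 128 * S ^ 4 * M ^ 8 ≤
          -(8 * ‖x‖ ^ 8) + 128 * S ^ 4 * M ^ 8)

end

end Pool.Agent.Helper45.HeatISS
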