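import Mathlib
import Pool.Agent.Helper45.HeatLyap

/-!
# Existence and uniqueness of solutions, variation of constants
-/

open MeasureTheory Set Filter Topology
open scoped ENNReal RealInnerProductSpace

namespace Pool.Agent.Helper45.HeatISS

noncomputable section

/-! ### Continuity in time -/

lemma wk_eq (t : ℝ) (u : ℝ → ℝ) (k : ℕ) :
    wk t u k = Real.exp (-lam k * t) * (bk k * ∫ s in (0 : ℝ)..t, Real.exp (lam k * s) * u s) := by
  unfold wk
  rw [← intervalIntegral.integral_const_mul, ← intervalIntegral.integral_const_mul]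
  congr 1; ext s
  have : Real.exp (-lam k * (t - s)) = Real.exp (-lam k * t) * Real.exp (lam k * s) := by
    rw [← Real.exp_add]; congr 1; ring
  rw [this]; ring

lemma continuous_wk (u : Inp) (k : ℕ) : Continuous (fun t => wk t u.1 k) := by
  simp_rw [wk_eq]
  have h : Continuous (fun t => ∫ s in (0 : ℝ)..t, Real.exp (lam k * s) * u.1 s) :=
    intervalIntegral.continuous_primitive
      (fun a b => u.intInt (f := fun s => Real.exp (lam k * s)) (by fun_prop) a b) 0
  fun_prop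

lemma continuous_hk (x : X) (k : ℕ) : Continuous (fun t => hk t x k) := by
  unfold hk; fun_prop

lemma energy_mono {t t' : ℝ} (ht : 0 ≤ t) (h : t ≤ t') (u : Inp) :
    energy t u.1 ≤ energy t' u.1 := by
  unfold energy
  apply intervalIntegral.integral_mono_interval le_rfl ht h
  · exact Eventually.of_forall fun s => by positivity
  · have := u.intInt8 (f := fun s => Real.exp s ^ 8) (by fun_prop) 0 t'
    convert this using 2
    ring

lemma continuousOn_Phi (x : X) (u : Inp) : ContinuousOn (fun t => Phi t x u.1) (Ici 0) := by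
  intro t ht
  rw [mem_Ici] at ht
  rw [ContinuousWithinAt, tendsto_iff_norm_sub_tendsto_zero]
  have hsq : Tendsto (fun t' => ‖Phi t' x u.1 - Phi t x u.1‖ ^ 2) (𝓝[Ici 0] t) (𝓝 0) := by
    set E := energy (t + 1) u.1 with hE
    set bound : ℕ → ℝ := fun k => 8 * (⟪ek k, x⟫ ^ 2 + ck k * E ^ ((1 : ℝ) / 4)) with hbound
    have hsum : Summable bound :=
      (((hasSum_sq x).summable).add (summable_ck.mul_right _)).mul_left 8
    have hcoef : ∀ s, 0 ≤ s → s ≤ t + 1 → ∀ k,
        (hk s x k + wk s u.1 k) ^ 2 ≤ 2 * (⟪ek k, x⟫ ^ 2 + ck k * E ^ ((1 : ℝ) / 4)) := by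
      intro s hs hs' k
      have h1 := hk_sq_le hs x k
      have h2 := wk_sq_le hs (u.adm s) k
      have h3 : energy s u.1 ^ ((1 : ℝ) / 4) ≤ E ^ ((1 : ℝ) / 4) :=
        Real.rpow_le_rpow (energy_nonneg hs _) (energy_mono hs hs' u) (by norm_num)
      have h4 : ck k * energy s u.1 ^ ((1 : ℝ) / 4) ≤ ck k * E ^ ((1 : ℝ) / 4) :=
        mul_le_mul_of_nonneg_left h3 (ck_nonneg k)
      nlinarith [sq_nonneg (hk s x k - wk s u.1 k)]
    have hev : ∀ᶠ t' in 𝓝[Ici 0] t, 0 ≤ t' ∧ t' ≤ t + 1 := by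
      have h1 : ∀ᶠ t' in 𝓝[Ici 0] t, t' ∈ Ici (0 : ℝ) := self_mem_nhdsWithin
      have h2 : ∀ᶠ t' in 𝓝[Ici 0] t, t' < t + 1 :=
        mem_nhdsWithin_of_mem_nhds (Iio_mem_nhds (by linarith))
      filter_upwards [h1, h2] with t' h1 h2 using ⟨h1, h2.le⟩
    have hmain := tendsto_tsum_of_dominated_convergence (𝓕 := 𝓝[Ici 0] t)
      (f := fun t' k => (hk t' x k + wk t' u.1 k - (hk t x k + wk t u.1 k)) ^ 2)
      (g := fun _ => (0 : ℝ)) (bound := bound) hsum (by
        intro k
        have hc : Continuous (fun t' => (hk t' x k + wk t' u.1 k -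
            (hk t x k + wk t u.1 k)) ^ 2) := by
          have h1 := continuous_hk x k
          have h2 := continuous_wk u k
          fun_prop
        have := hc.tendsto t
        simp only [sub_self, ne_eq, OfNat.ofNat_ne_zero, not_false_eq_true, zero_pow] at this
        exact this.mono_left nhdsWithin_le_nhds) (by
        filter_upwards [hev] with t' ht' k
        rw [Real.norm_of_nonneg (sq_nonneg _)]
        have h1 := hcoef t' ht'.1 ht'.2 k
        have h2 := hcoef t ht (by linarith) k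
        rw [hbound]
        simp only
        nlinarith [sq_nonneg (hk t' x k + wk t' u.1 k + (hk t x k + wk t u.1 k))])
    rw [tsum_zero] at hmain
    refine hmain.congr' ?_
    filter_upwards [hev] with t' ht'
    have h1 := (hasSum_sq (Phi t' x u.1 - Phi t x u.1)).tsum_eq
    rw [← h1]
    congr 1; ext k
    rw [inner_sub_right, inner_Phi ht'.1 x (u.adm t'), inner_Phi ht x (u.adm t)]
  have h := (Real.continuous_sqrt.tendsto 0).comp hsq
  rw [Real.sqrt_zero] at h
  refine h.congr fun t' => ?_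
  simp [Real.sqrt_sq (norm_nonneg _)]

/-! ### The scalar integral equation -/

lemma coef_ode (x : X) (u : Inp) (k : ℕ) (t : ℝ) :
    hk t x k + wk t u.1 k = ⟪ek k, x⟫ +
      ∫ s in (0 : ℝ)..t, (-lam k * (hk s x k + wk s u.1 k) + bk k * u.1 s) := by
  set F : ℝ → ℝ := fun s => Real.exp (-lam k * s) with hF
  set g : ℝ → ℝ := fun s => bk k * (Real.exp (lam k * s) * u.1 s) with hg
  set G : ℝ → ℝ := fun s => ⟪ek k, x⟫ + ∫ r in (0 : ℝ)..s, g r with hG
  have hgi : ∀ a b, IntervalIntegrable g volume a b := by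
    intro a b
    exact (u.intInt (f := fun s => Real.exp (lam k * s)) (by fun_prop) a b).const_mul (bk k)
  have hFac : AbsolutelyContinuousOnInterval F 0 t := by
    apply ContDiffOn.absolutelyContinuousOnInterval
    exact (by fun_prop : ContDiff ℝ 1 F).contDiffOn
  have hGac : AbsolutelyContinuousOnInterval G 0 t := by
    have h1 : AbsolutelyContinuousOnInterval (fun _ : ℝ => ⟪ek k, x⟫) 0 t := by
      apply ContDiffOn.absolutelyContinuousOnInterval
      exact contDiff_const.contDiffOn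
    have h2 := (hgi 0 t).absolutelyContinuousOnInterval_intervalIntegral (c := 0) (by simp)
    exact h1.add h2
  have hparts := AbsolutelyContinuousOnInterval.integral_deriv_mul_eq_sub hFac hGac
  have hGd : ∀ᵐ s, s ∈ uIcc 0 t → HasDerivAt G (g s) s := by
    have := (hgi 0 t).ae_hasDerivAt_integral
    filter_upwards [this] with s hs hs'
    exact (hs hs' 0 left_mem_uIcc).const_add _
  have hlhs : ∫ s in (0 : ℝ)..t, deriv F s * G s + F s * deriv G s =
      ∫ s in (0 : ℝ)..t, (-lam k * (hk s x k + wk s u.1 k) + bk k * u.1 s) := by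
    apply intervalIntegral.integral_congr_ae
    filter_upwards [hGd] with s hs0 hst
    have hs := hs0 (uIoc_subset_uIcc hst)
    have hFd : deriv F s = -lam k * F s := by
      have h1 : HasDerivAt (fun s : ℝ => -lam k * s) (-lam k) s := by
        simpa using (hasDerivAt_id s).const_mul (-lam k)
      have := h1.exp.deriv
      rw [hF, this]; ring
    rw [hs.deriv, hFd]
    have h1 : hk s x k + wk s u.1 k = F s * G s := by
      rw [wk_eq]
      unfold hk
      rw [hG, hF, hg]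
      simp only
      rw [intervalIntegral.integral_const_mul]
      ring
    have h2 : F s * g s = bk k * u.1 s := by
      rw [hF, hg]
      simp only
      have : Real.exp (-lam k * s) * Real.exp (lam k * s) = 1 := by
        rw [← Real.exp_add]; simp
      calc Real.exp (-lam k * s) * (bk k * (Real.exp (lam k * s) * u.1 s)) =
          (Real.exp (-lam k * s) * Real.exp (lam k * s)) * (bk k * u.1 s) := by ring
        _ = _ := by rw [this, one_mul]
    rw [h1, h2]; ring
  rw [← hlhs, hparts]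
  rw [wk_eq]
  unfold hk
  rw [hG, hF, hg]
  simp only
  rw [intervalIntegral.integral_const_mul]
  simp only [mul_zero, Real.exp_zero, intervalIntegral.integral_same, add_zero, one_mul]
  ring

/-! ### Test functions -/

lemma integral_Ioo_eq (f : ℝ → ℝ) : ∫ z in Ioo (0 : ℝ) 1, f z = ∫ z in (0 : ℝ)..1, f z := by
  rw [← integral_Ioc_eq_integral_Ioo, ← intervalIntegral.integral_of_le zero_le_one]

lemma deriv_cont {ψ : ℝ → ℝ} (hψ : ContDiff ℝ 2 ψ) : Continuous (deriv ψ) :=
  hψ.continuous_deriv (by norm_num)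

lemma contDiff_deriv {ψ : ℝ → ℝ} (hψ : ContDiff ℝ 2 ψ) : ContDiff ℝ 1 (deriv ψ) := by
  have : ContDiff ℝ (1 + 1) ψ := by simpa [one_add_one_eq_two] using hψ
  exact (contDiff_succ_iff_deriv.mp this).2.2

lemma deriv2_cont {ψ : ℝ → ℝ} (hψ : ContDiff ℝ 2 ψ) : Continuous (deriv (deriv ψ)) :=
  (contDiff_deriv hψ).continuous_deriv le_rfl

lemma hasDerivAt1 {ψ : ℝ → ℝ} (hψ : ContDiff ℝ 2 ψ) (z : ℝ) : HasDerivAt ψ (deriv ψ z) z :=
  (hψ.differentiable (by norm_num) z).hasDerivAt

lemma hasDerivAt2 {ψ : ℝ → ℝ} (hψ : ContDiff ℝ 2 ψ) (z : ℝ) :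
    HasDerivAt (deriv ψ) (deriv (deriv ψ) z) z :=
  ((contDiff_deriv hψ).differentiable (by norm_num) z).hasDerivAt

lemma deriv_sfun (k : ℕ) : deriv (sfun k) =
    fun z => Real.sqrt 2 * (((k + 1 : ℕ) : ℝ) * Real.pi) *
      Real.cos (((k + 1 : ℕ) : ℝ) * Real.pi * z) := by
  ext z
  have h1 : HasDerivAt (fun z : ℝ => ((k + 1 : ℕ) : ℝ) * Real.pi * z)
      (((k + 1 : ℕ) : ℝ) * Real.pi) z := by
    simpa using (hasDerivAt_id z).const_mul (((k + 1 : ℕ) : ℝ) * Real.pi)
  have h2 := (h1.sin).const_mul (Real.sqrt 2)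
  have := h2.deriv
  unfold sfun
  rw [this]; ring

lemma deriv2_sfun (k : ℕ) : deriv (deriv (sfun k)) = fun z => -lam k * sfun k z := by
  rw [deriv_sfun]
  ext z
  have h1 : HasDerivAt (fun z : ℝ => ((k + 1 : ℕ) : ℝ) * Real.pi * z)
      (((k + 1 : ℕ) : ℝ) * Real.pi) z := by
    simpa using (hasDerivAt_id z).const_mul (((k + 1 : ℕ) : ℝ) * Real.pi)
  have h2 := (h1.cos).const_mul (Real.sqrt 2 * (((k + 1 : ℕ) : ℝ) * Real.pi))
  rw [h2.deriv]
  unfold sfun lam
  ring

lemma contDiff_sfun (k : ℕ) : ContDiff ℝ 2 (sfun k) := by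
  unfold sfun; fun_prop

lemma sfun_zero (k : ℕ) : sfun k 0 = 0 := by simp [sfun]

lemma sfun_one (k : ℕ) : sfun k 1 = 0 := by
  unfold sfun
  rw [mul_one, Real.sin_nat_mul_pi, mul_zero]

lemma deriv_sfun_one (k : ℕ) : deriv (sfun k) 1 = -bk k := by
  rw [deriv_sfun]
  unfold bk
  simp

/-- Green's identity against the eigenfunctions -/
lemma inner_deriv2 {ψ : ℝ → ℝ} (hψ : ContDiff ℝ 2 ψ) (h0 : ψ 0 = 0) (h1 : ψ 1 = 0) (k : ℕ) :
    ∫ z in (0 : ℝ)..1, sfun k z * deriv (deriv ψ) z =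
      -lam k * ∫ z in (0 : ℝ)..1, sfun k z * ψ z := by
  have p1 := intervalIntegral.integral_mul_deriv_eq_deriv_mul (a := 0) (b := 1)
    (u := sfun k) (v := deriv ψ) (u' := deriv (sfun k)) (v' := deriv (deriv ψ))
    (fun z _ => hasDerivAt1 (contDiff_sfun k) z) (fun z _ => hasDerivAt2 hψ z)
    ((deriv_cont (contDiff_sfun k)).intervalIntegrable _ _)
    ((deriv2_cont hψ).intervalIntegrable _ _)
  have p2 := intervalIntegral.integral_mul_deriv_eq_deriv_mul (a := 0) (b := 1)
    (u := deriv (sfun k)) (v := ψ) (u' := deriv (deriv (sfun k))) (v' := deriv ψ)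
    (fun z _ => hasDerivAt2 (contDiff_sfun k) z) (fun z _ => hasDerivAt1 hψ z)
    ((deriv2_cont (contDiff_sfun k)).intervalIntegrable _ _)
    ((deriv_cont hψ).intervalIntegrable _ _)
  rw [p1, p2, sfun_zero, sfun_one, h0, h1, deriv2_sfun]
  simp only [zero_mul, mul_zero, sub_zero, zero_sub, neg_neg]
  rw [← intervalIntegral.integral_const_mul]
  congr 1; ext z; ring

/-- the stationary profile `g(z) = z`: `⟨g, ψ''⟩ = ψ'(1)` -/
lemma integral_id_deriv2 {ψ : ℝ → ℝ} (hψ : ContDiff ℝ 2 ψ) (h0 : ψ 0 = 0) (h1 : ψ 1 = 0) :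
    ∫ z in (0 : ℝ)..1, z * deriv (deriv ψ) z = deriv ψ 1 := by
  have p1 := intervalIntegral.integral_mul_deriv_eq_deriv_mul (a := 0) (b := 1)
    (u := fun z : ℝ => z) (v := deriv ψ) (u' := fun _ => (1 : ℝ)) (v' := deriv (deriv ψ))
    (fun z _ => hasDerivAt_id z) (fun z _ => hasDerivAt2 hψ z)
    (continuous_const.intervalIntegrable _ _)
    ((deriv2_cont hψ).intervalIntegrable _ _)
  rw [p1]
  have p2 : ∫ z in (0 : ℝ)..1, (1 : ℝ) * deriv ψ z = ψ 1 - ψ 0 := by
    simp_rw [one_mul]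
    exact intervalIntegral.integral_eq_sub_of_hasDerivAt (fun z _ => hasDerivAt1 hψ z)
      ((deriv_cont hψ).intervalIntegrable _ _)
  rw [p2, h0, h1]; simp

/-- the element `g(z) = z` of `X` -/
def gX : X := ofCont (continuous_id (X := ℝ))

lemma inner_gX (k : ℕ) : lam k * ⟪ek k, gX⟫ = bk k := by
  have h := integral_id_deriv2 (contDiff_sfun k) (sfun_zero k) (sfun_one k)
  rw [deriv_sfun_one, deriv2_sfun] at h
  have h2 : ⟪ek k, gX⟫ = ∫ z in (0 : ℝ)..1, z * sfun k z := by
    unfold ek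
    rw [inner_ofCont, ← integral_Ioo_eq]
    apply integral_congr_ae
    filter_upwards [ofCont_coe (continuous_id (X := ℝ))] with z hz
    have : (gX : ℝ → ℝ) z = z := hz
    rw [this]
  have h3 : ∫ z in (0 : ℝ)..1, z * (-lam k * sfun k z) = -lam k * ⟪ek k, gX⟫ := by
    rw [h2, ← intervalIntegral.integral_const_mul]
    congr 1; ext z; ring
  rw [h3] at h
  linarith

lemma inner_gX_deriv2 {ψ : ℝ → ℝ} (hψ : ContDiff ℝ 2 ψ) (h0 : ψ 0 = 0) (h1 : ψ 1 = 0) :
    ⟪ofCont (deriv2_cont hψ), gX⟫ = deriv ψ 1 := by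
  rw [inner_ofCont, ← integral_id_deriv2 hψ h0 h1, ← integral_Ioo_eq]
  apply integral_congr_ae
  filter_upwards [ofCont_coe (continuous_id (X := ℝ))] with z hz
  have : (gX : ℝ → ℝ) z = z := hz
  rw [this]

lemma coef_deriv2 {ψ : ℝ → ℝ} (hψ : ContDiff ℝ 2 ψ) (h0 : ψ 0 = 0) (h1 : ψ 1 = 0) (k : ℕ) :
    ⟪ek k, ofCont (deriv2_cont hψ)⟫ = -lam k * ⟪ek k, ofCont hψ.continuous⟫ := by
  have e : ∀ {g : ℝ → ℝ} (hg : Continuous g), ⟪ek k, ofCont hg⟫ =
      ∫ z in (0 : ℝ)..1, sfun k z * g z := by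
    intro g hg
    unfold ek
    rw [inner_ofCont, ← integral_Ioo_eq]
    apply integral_congr_ae
    filter_upwards [ofCont_coe hg] with z hz
    rw [hz]; ring
  rw [e, e]
  exact inner_deriv2 hψ h0 h1 k

/-! ### The weak formulation -/

lemma Phi_weak (x : X) (u : Inp) {ψ : ℝ → ℝ} (hψ : ContDiff ℝ 2 ψ) (h0 : ψ 0 = 0)
    (h1 : ψ 1 = 0) {t : ℝ} (ht : 0 ≤ t) :
    ⟪ofCont hψ.continuous, Phi t x u.1⟫ = ⟪ofCont hψ.continuous, x⟫ +
      ∫ s in (0 : ℝ)..t, (⟪ofCont (deriv2_cont hψ), Phi s x u.1⟫ - u.1 s * deriv ψ 1) := by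
  have hc : ContinuousOn (fun s => Phi s x u.1) (uIcc 0 t) := by
    rw [uIcc_of_le ht]
    exact (continuousOn_Phi x u).mono Icc_subset_Ici_self
  have hui : IntervalIntegrable u.1 volume 0 t := (u.adm t).intervalIntegrable ht
  have hPi : IntervalIntegrable (fun s => Phi s x u.1) volume 0 t := hc.intervalIntegrable
  set ζ : X := (∫ s in (0 : ℝ)..t, Phi s x u.1) - (∫ s in (0 : ℝ)..t, u.1 s) • gX with hζ
  have hin : ∀ y : X, ⟪y, ∫ s in (0 : ℝ)..t, Phi s x u.1⟫ =
      ∫ s in (0 : ℝ)..t, ⟪y, Phi s x u.1⟫ := by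
    intro y
    exact (ContinuousLinearMap.intervalIntegral_comp_comm (innerSL ℝ y) hPi).symm
  -- coefficients of `ζ`
  have hcoef : ∀ k, ⟪ek k, Phi t x u.1 - x⟫ = -lam k * ⟪ek k, ζ⟫ := by
    intro k
    rw [inner_sub_right, inner_Phi ht x (u.adm t), coef_ode x u k t, hζ, inner_sub_right,
      inner_smul_right, hin]
    have e1 : ∫ s in (0 : ℝ)..t, ⟪ek k, Phi s x u.1⟫ =
        ∫ s in (0 : ℝ)..t, (hk s x k + wk s u.1 k) := by
      apply intervalIntegral.integral_congr
      intro s hs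
      rw [uIcc_of_le ht] at hs
      exact inner_Phi hs.1 x (u.adm s) k
    rw [e1]
    have hhw : Continuous fun s => hk s x k + wk s u.1 k :=
      (continuous_hk x k).add (continuous_wk u k)
    rw [intervalIntegral.integral_add ((hhw.const_mul (-lam k)).intervalIntegrable _ _)
      (hui.const_mul _), intervalIntegral.integral_const_mul, intervalIntegral.integral_const_mul,
      ← inner_gX k]
    ring
  have hpars : ⟪ofCont hψ.continuous, Phi t x u.1 - x⟫ = ⟪ofCont (deriv2_cont hψ), ζ⟫ := by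
    rw [← sineBasis.tsum_inner_mul_inner (ofCont hψ.continuous) (Phi t x u.1 - x),
      ← sineBasis.tsum_inner_mul_inner (ofCont (deriv2_cont hψ)) ζ]
    congr 1; ext k
    rw [sineBasis_apply, hcoef, real_inner_comm, real_inner_comm (ek k) (ofCont (deriv2_cont hψ)),
      coef_deriv2 hψ h0 h1]
    ring
  rw [inner_sub_right] at hpars
  have hfin : ⟪ofCont (deriv2_cont hψ), ζ⟫ =
      ∫ s in (0 : ℝ)..t, (⟪ofCont (deriv2_cont hψ), Phi s x u.1⟫ - u.1 s * deriv ψ 1) := by
    rw [hζ, inner_sub_right, inner_smul_right, hin, inner_gX_deriv2 hψ h0 h1,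
      intervalIntegral.integral_sub, intervalIntegral.integral_mul_const]
    · exact (ContinuousOn.inner continuousOn_const hc).intervalIntegrable
    · exact hui.mul_const _
  linarith

end

end Pool.Agent.Helper45.HeatISS
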