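import Mathlib
import Pool.Agent.Helper45.HeatSol

/-!
# Assembling the result
-/

open MeasureTheory Set Filter Topology
open scoped ENNReal RealInnerProductSpace

namespace Pool.Agent.Helper45.HeatISS

noncomputable section

lemma ae_abs_le_norm (u : U) : ∀ᵐ s ∂(volume.restrict (Ici (0 : ℝ))), |u s| ≤ ‖u‖ := by
  have h := ae_le_eLpNormEssSup (f := (u : ℝ → ℝ)) (μ := volume.restrict (Ici (0 : ℝ)))
  filter_upwards [h] with s hs
  rw [Lp.norm_def, eLpNorm_exponent_top]
  have hfin : eLpNormEssSup (u : ℝ → ℝ) (volume.restrict (Ici (0 : ℝ))) ≠ ∞ := by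
    have := Lp.eLpNorm_ne_top u
    rwa [eLpNorm_exponent_top] at this
  have h2 := ENNReal.toReal_mono hfin hs
  simpa using h2

/-- Borel, everywhere bounded representative of an input -/
def rep (u : U) : Inp :=
  ⟨fun s => max (-‖u‖) (min ‖u‖ (u s)), by
    exact measurable_const.max (measurable_const.min (Lp.stronglyMeasurable u).measurable),
    ‖u‖, fun s => by
      rw [abs_le]
      refine ⟨le_max_left _ _, max_le ?_ (min_le_left _ _)⟩
      have := norm_nonneg u
      linarith⟩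

lemma rep_bound (u : U) (s : ℝ) : |(rep u).1 s| ≤ ‖u‖ := by
  unfold rep
  rw [abs_le]
  refine ⟨le_max_left _ _, max_le ?_ (min_le_left _ _)⟩
  have := norm_nonneg u
  linarith

lemma rep_ae (u : U) {t : ℝ} : ∀ᵐ s, s ∈ Ioc 0 t → (rep u).1 s = u s := by
  have h := ae_abs_le_norm u
  rw [ae_restrict_iff' measurableSet_Ici] at h
  filter_upwards [h] with s hs hst
  have := hs hst.1.le
  rw [abs_le] at this
  unfold rep
  simp only
  rw [min_eq_right this.2, max_eq_right this.1]

/-- the solution map for inputs in `L_∞` -/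
def phi (t : ℝ) (x : X) (u : U) : X := Phi t x (rep u).1

lemma phi_isSolution (x : X) (u : U) : IsSolution x u (fun t => phi t x u) where
  continuousOn := continuousOn_Phi x (rep u)
  initial := Phi_zero x (rep u)
  weak := by
    intro ψ hψ h0 h1 t ht
    have h := Phi_weak x (rep u) hψ h0 h1 ht
    rw [inner_ofCont, inner_ofCont] at h
    refine h.trans ?_
    congr 1
    apply intervalIntegral.integral_congr_ae
    filter_upwards [rep_ae u (t := t)] with s hs hst
    rw [uIoc_of_le ht] at hst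
    rw [hs hst, inner_ofCont]
    rfl

/-- a continuous solution of `d = - λ ∫ d` vanishes -/
lemma volterra_zero {d : ℝ → ℝ} (hd : ContinuousOn d (Ici 0)) (l : ℝ)
    (h : ∀ t, 0 ≤ t → d t = -l * ∫ s in (0 : ℝ)..t, d s) : ∀ t, 0 ≤ t → d t = 0 := by
  intro t ht
  set e : ℝ → ℝ := fun s => d (max 0 s) with he
  have hec : Continuous e := by
    have hm : Continuous (fun s : ℝ => max 0 s) := continuous_const.max continuous_id
    exact hd.comp_continuous hm (fun s => mem_Ici.mpr (le_max_left 0 s))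
  set D : ℝ → ℝ := fun r => ∫ s in (0 : ℝ)..r, e s with hD
  have hDd : ∀ r, HasDerivAt D (e r) r := fun r =>
    intervalIntegral.integral_hasDerivAt_right (hec.intervalIntegrable _ _)
      hec.aestronglyMeasurable.stronglyMeasurableAtFilter hec.continuousAt
  have hDeq : ∀ r, 0 ≤ r → D r = ∫ s in (0 : ℝ)..r, d s := by
    intro r hr
    apply intervalIntegral.integral_congr
    intro s hs
    rw [uIcc_of_le hr] at hs
    rw [he]; simp only
    rw [max_eq_right hs.1]
  have hed : ∀ r, 0 ≤ r → e r = -l * D r := by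
    intro r hr
    rw [hDeq r hr, ← h r hr, he]; simp only
    rw [max_eq_right hr]
  set G : ℝ → ℝ := fun r => Real.exp (l * r) * D r with hG
  have hGd : ∀ r, 0 ≤ r → HasDerivAt G 0 r := by
    intro r hr
    have h1 : HasDerivAt (fun r : ℝ => l * r) l r := by
      simpa using (hasDerivAt_id r).const_mul l
    have h2 := h1.exp.mul (hDd r)
    refine h2.congr_deriv ?_
    rw [hed r hr]; ring
  have hconst := constant_of_has_deriv_right_zero (f := G) (a := 0) (b := t)
    (fun r hr => (hGd r hr.1).continuousAt.continuousWithinAt)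
    (fun r hr => (hGd r hr.1).hasDerivWithinAt) t ⟨ht, le_rfl⟩
  have hG0 : G 0 = 0 := by rw [hG, hD]; simp
  rw [hG0, hG] at hconst
  simp only at hconst
  have hDt : D t = 0 := (mul_eq_zero.mp hconst).resolve_left (Real.exp_pos _).ne'
  rw [h t ht, ← hDeq t ht, hDt, mul_zero]

lemma solution_coef {x : X} {u : U} {ξ : ℝ → X} (hξ : IsSolution x u ξ) (k : ℕ) {t : ℝ}
    (ht : 0 ≤ t) : ⟪ek k, ξ t⟫ = ⟪ek k, x⟫ +
      ∫ s in (0 : ℝ)..t, (-lam k * ⟪ek k, ξ s⟫ + bk k * (rep u).1 s) := by
  have h := hξ.weak (sfun k) (contDiff_sfun k) (sfun_zero k) (sfun_one k) t ht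
  have e : ∀ y : X, ∫ z in Ioo (0 : ℝ) 1, y z * sfun k z = ⟪ek k, y⟫ := by
    intro y; unfold ek; rw [inner_ofCont]
  rw [e, e] at h
  rw [h]
  congr 1
  apply intervalIntegral.integral_congr_ae
  filter_upwards [rep_ae u (t := t)] with s hs hst
  rw [uIoc_of_le ht] at hst
  rw [hs hst, deriv_sfun_one, deriv2_sfun]
  have e2 : ∫ z in Ioo (0 : ℝ) 1, (ξ s) z * (-lam k * sfun k z) = -lam k * ⟪ek k, ξ s⟫ := by
    rw [← e, ← integral_const_mul]
    congr 1; ext z; ring
  rw [e2]; ring

lemma solution_unique {x : X} {u : U} {ξ : ℝ → X} (hξ : IsSolution x u ξ) {t : ℝ}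
    (ht : 0 ≤ t) : ξ t = phi t x u := by
  apply ext_coef
  intro k
  rw [← sub_eq_zero]
  have hc1 : ContinuousOn (fun s => ⟪ek k, ξ s⟫) (Ici 0) :=
    ContinuousOn.inner continuousOn_const hξ.continuousOn
  have hc2 : ContinuousOn (fun s => ⟪ek k, phi s x u⟫) (Ici 0) :=
    ContinuousOn.inner continuousOn_const (phi_isSolution x u).continuousOn
  refine volterra_zero (d := fun s => ⟪ek k, ξ s⟫ - ⟪ek k, phi s x u⟫)
    (hc1.sub hc2) (lam k) ?_ t ht
  intro r hr
  have h1 := solution_coef hξ k hr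
  have h2 := solution_coef (phi_isSolution x u) k hr
  rw [h1, h2]
  have hI : uIcc 0 r ⊆ Ici 0 := by
    rw [uIcc_of_le hr]; exact Icc_subset_Ici_self
  have i1 : IntervalIntegrable (fun s => ⟪ek k, ξ s⟫) volume 0 r :=
    (hc1.mono hI).intervalIntegrable
  have i2 : IntervalIntegrable (fun s => ⟪ek k, phi s x u⟫) volume 0 r :=
    (hc2.mono hI).intervalIntegrable
  have i3 : IntervalIntegrable (fun s => (rep u).1 s) volume 0 r :=
    ((rep u).adm r).intervalIntegrable hr
  rw [intervalIntegral.integral_add (i1.const_mul _) (i3.const_mul _),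
    intervalIntegral.integral_add (i2.const_mul _) (i3.const_mul _),
    intervalIntegral.integral_sub i1 i2]
  simp only [intervalIntegral.integral_const_mul]
  ring

lemma phi_formula (t : ℝ) (ht : 0 ≤ t) (x : X) (u : U) (n : ℕ) (hn : 1 ≤ n) :
    sineCoeff n (phi t x u) =
      Real.exp (-((n * Real.pi) ^ 2 * t)) * sineCoeff n x +
        ∫ s in (0 : ℝ)..t, Real.exp (-((n * Real.pi) ^ 2 * (t - s))) *
          (-(u s) * (Real.sqrt 2 * (n * Real.pi) * Real.cos (n * Real.pi))) := by
  obtain ⟨k, rfl⟩ : ∃ k, n = k + 1 := ⟨n - 1, by omega⟩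
  rw [← inner_ek, ← inner_ek]
  unfold phi
  rw [inner_Phi ht x ((rep u).adm t)]
  unfold hk wk
  congr 1
  · congr 2
    unfold lam; ring
  · apply intervalIntegral.integral_congr_ae
    filter_upwards [rep_ae u (t := t)] with s hs hst
    rw [uIoc_of_le ht] at hst
    rw [hs hst]
    unfold lam bk
    have : -(((k + 1 : ℕ) : ℝ) * Real.pi) ^ 2 * (t - s) =
      -((((k + 1 : ℕ) : ℝ) * Real.pi) ^ 2 * (t - s)) := by ring
    rw [this]; ring

lemma classKInf_pow {c : ℝ} (hc : 0 < c) : ClassKInf (fun r => c * r ^ 8) := by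
  refine ⟨⟨by fun_prop, ?_, by simp⟩, ?_⟩
  · intro a ha b hb hab
    simp only [mem_Ici] at ha hb
    simp only
    gcongr
  · apply Tendsto.const_mul_atTop hc
    exact tendsto_pow_atTop (by norm_num)

lemma V_isLyapunov : IsCoerciveISSLyapunov phi V := by
  refine ⟨continuous_V, fun r => 1 * r ^ 8, fun r => 128 * r ^ 8, fun r => 8 * r ^ 8,
    fun r => (128 * S ^ 4 + 1) * r ^ 8, classKInf_pow one_pos, classKInf_pow (by norm_num),
    classKInf_pow (by norm_num), (classKInf_pow (by have := S_nonneg; positivity)).1, ?_, ?_⟩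
  · intro x
    refine ⟨?_, V_le x⟩
    simpa using le_V x
  · intro x u
    refine (limsup_V_le x (rep u) (rep_bound u)).trans ?_
    have : 0 ≤ ‖u‖ ^ 8 := by positivity
    exact_mod_cast (by nlinarith : -(8 * ‖x‖ ^ 8) + 128 * S ^ 4 * ‖u‖ ^ 8 ≤
      -(8 * ‖x‖ ^ 8) + (128 * S ^ 4 + 1) * ‖u‖ ^ 8)

end

end Pool.Agent.Helper45.HeatISS
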